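import Mathlib

/-!
# Zonotopes, support functions and Hausdorff approximation

Basic facts used for MP_217de7_gt: a compact convex set whose support function is a pointwise
limit of support functions of (centred) zonotopes is a Hausdorff limit of zonotopes.
-/

open Set Filter Topology MeasureTheory

namespace Pool.Agent.Lib.MP_217de7_gt

/-- Support function of the zonotope generated by the segments `[-v i, v i]`. -/
noncomputable def zsup {n m : ℕ} (v : Fin m → EuclideanSpace ℝ (Fin n))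
    (x : EuclideanSpace ℝ (Fin n)) : ℝ :=
  ∑ i, |inner ℝ x (v i)|

/-- The zonotope generated by the segments `[-v i, v i]`. -/
def zono {n m : ℕ} (v : Fin m → EuclideanSpace ℝ (Fin n)) : Set (EuclideanSpace ℝ (Fin n)) :=
  {x | ∃ t : Fin m → ℝ, (∀ i, |t i| ≤ 1) ∧ x = ∑ i, t i • v i}

/-- Support functions of zonotopes. -/
def ZS (n : ℕ) : Set (EuclideanSpace ℝ (Fin n) → ℝ) :=
  {f | ∃ (m : ℕ) (v : Fin m → EuclideanSpace ℝ (Fin n)), f = zsup v}

/-- Pointwise limits (on finite sets) of support functions of zonotopes. -/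
def ZC (n : ℕ) : Set (EuclideanSpace ℝ (Fin n) → ℝ) :=
  {f | ∀ (S : Finset (EuclideanSpace ℝ (Fin n))) (ε : ℝ), 0 < ε →
    ∃ g ∈ ZS n, ∀ x ∈ S, |f x - g x| < ε}

variable {n : ℕ}

lemma ZS_zero : (fun _ => (0 : ℝ)) ∈ ZS n := by
  refine ⟨0, fun i => 0, ?_⟩
  funext x
  simp [zsup]

lemma ZS_add {f g : EuclideanSpace ℝ (Fin n) → ℝ} (hf : f ∈ ZS n) (hg : g ∈ ZS n) :
    (fun x => f x + g x) ∈ ZS n := by
  obtain ⟨m, v, rfl⟩ := hf
  obtain ⟨k, w, rfl⟩ := hg
  refine ⟨m + k, Fin.append v w, ?_⟩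
  funext x
  simp [zsup, Fin.sum_univ_add]

lemma ZS_smul {f : EuclideanSpace ℝ (Fin n) → ℝ} (hf : f ∈ ZS n) {c : ℝ} (hc : 0 ≤ c) :
    (fun x => c * f x) ∈ ZS n := by
  obtain ⟨m, v, rfl⟩ := hf
  refine ⟨m, fun i => c • v i, ?_⟩
  funext x
  simp only [zsup, Finset.mul_sum, inner_smul_right, abs_mul, abs_of_nonneg hc]

lemma ZS_single (v : EuclideanSpace ℝ (Fin n)) : (fun x => |inner ℝ x v|) ∈ ZS n := by
  refine ⟨1, fun _ => v, ?_⟩
  funext x
  simp [zsup]

lemma ZS_subset_ZC : ZS n ⊆ ZC n := by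
  intro f hf S ε hε
  exact ⟨f, hf, fun x _ => by simpa using hε⟩

lemma ZC_add {f g : EuclideanSpace ℝ (Fin n) → ℝ} (hf : f ∈ ZC n) (hg : g ∈ ZC n) :
    (fun x => f x + g x) ∈ ZC n := by
  intro S ε hε
  obtain ⟨f', hf', h1⟩ := hf S (ε / 2) (by positivity)
  obtain ⟨g', hg', h2⟩ := hg S (ε / 2) (by positivity)
  refine ⟨_, ZS_add hf' hg', fun x hx => ?_⟩
  have a := h1 x hx
  have b := h2 x hx
  calc |f x + g x - (f' x + g' x)| = |(f x - f' x) + (g x - g' x)| := by ring_nf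
    _ ≤ |f x - f' x| + |g x - g' x| := abs_add_le _ _
    _ < ε := by linarith

lemma ZC_smul {f : EuclideanSpace ℝ (Fin n) → ℝ} (hf : f ∈ ZC n) {c : ℝ} (hc : 0 ≤ c) :
    (fun x => c * f x) ∈ ZC n := by
  intro S ε hε
  obtain ⟨f', hf', h1⟩ := hf S (ε / (c + 1)) (by positivity)
  refine ⟨_, ZS_smul hf' hc, fun x hx => ?_⟩
  have a := h1 x hx
  rw [← mul_sub, abs_mul, abs_of_nonneg hc]
  rw [lt_div_iff₀ (by positivity)] at a
  nlinarith [abs_nonneg (f x - f' x)]

lemma ZC_zero : (fun _ => (0 : ℝ)) ∈ ZC n := ZS_subset_ZC ZS_zero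

lemma ZC_sum {ι : Type*} (s : Finset ι) (F : ι → EuclideanSpace ℝ (Fin n) → ℝ)
    (h : ∀ i ∈ s, F i ∈ ZC n) : (fun x => ∑ i ∈ s, F i x) ∈ ZC n := by
  classical
  induction s using Finset.induction_on with
  | empty => simpa using ZC_zero
  | insert a s ha ih =>
    have h1 := h a (Finset.mem_insert_self a s)
    have h2 := ih (fun i hi => h i (Finset.mem_insert_of_mem hi))
    have := ZC_add h1 h2
    simpa [Finset.sum_insert ha] using this

/-- `ZC` is closed under pointwise approximation. -/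
lemma ZC_closed {f : EuclideanSpace ℝ (Fin n) → ℝ}
    (h : ∀ (S : Finset (EuclideanSpace ℝ (Fin n))) (ε : ℝ), 0 < ε →
      ∃ g ∈ ZC n, ∀ x ∈ S, |f x - g x| < ε) : f ∈ ZC n := by
  intro S ε hε
  obtain ⟨g, hg, h1⟩ := h S (ε / 2) (by positivity)
  obtain ⟨k, hk, h2⟩ := hg S (ε / 2) (by positivity)
  refine ⟨k, hk, fun x hx => ?_⟩
  have a := h1 x hx
  have b := h2 x hx
  calc |f x - k x| = |(f x - g x) + (g x - k x)| := by ring_nf
    _ ≤ |f x - g x| + |g x - k x| := abs_add_le _ _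
    _ < ε := by linarith

/-- `ZC` is closed under averaging with respect to a probability measure. -/
lemma ZC_integral {Ω : Type*} [MeasurableSpace Ω] (P : Measure Ω) [IsProbabilityMeasure P]
    (F : Ω → EuclideanSpace ℝ (Fin n) → ℝ) (hF : ∀ ω, F ω ∈ ZC n)
    (hint : ∀ x, Integrable (fun ω => F ω x) P) :
    (fun x => ∫ ω, F ω x ∂P) ∈ ZC n := by
  intro S ε hε
  -- restriction of `ZS` to the finite set `S`
  let A : Set (S → ℝ) := {g | ∃ f ∈ ZS n, g = fun x : S => f x}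
  have hA : Convex ℝ A := by
    rintro _ ⟨f, hf, rfl⟩ _ ⟨g, hg, rfl⟩ a b ha hb _
    refine ⟨_, ZS_add (ZS_smul hf ha) (ZS_smul hg hb), ?_⟩
    funext x
    simp
  have hcl : Convex ℝ (closure A) := hA.closure
  have hmem : ∀ ω, (fun x : S => F ω x) ∈ closure A := by
    intro ω
    rw [Metric.mem_closure_iff]
    intro δ hδ
    obtain ⟨g, hg, h1⟩ := hF ω S δ hδ
    refine ⟨fun x : S => g x, ⟨g, hg, rfl⟩, ?_⟩
    rw [dist_pi_lt_iff hδ]
    intro x
    rw [Real.dist_eq]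
    exact h1 x x.2
  have hI : Integrable (fun ω => (fun x : S => F ω x)) P := by
    rw [integrable_pi_iff]
    intro x
    exact hint x
  have key : ∫ ω, (fun x : S => F ω x) ∂P ∈ closure A :=
    hcl.integral_mem isClosed_closure (Eventually.of_forall hmem) hI
  rw [Metric.mem_closure_iff] at key
  obtain ⟨_, ⟨g, hg, rfl⟩, h2⟩ := key ε hε
  refine ⟨g, hg, fun x hx => ?_⟩
  rw [dist_pi_lt_iff hε] at h2
  have h3 := h2 ⟨x, hx⟩
  rw [Real.dist_eq] at h3
  have h4 : (∫ ω, (fun x : S => F ω x) ∂P) ⟨x, hx⟩ = ∫ ω, F ω x ∂P := by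
    exact eval_integral (f := fun ω (x : S) => F ω x) (fun i : S => hint i) ⟨x, hx⟩
  rw [h4] at h3
  exact h3

/-! ### Zonotopes -/

lemma zono_inner_le {m : ℕ} (v : Fin m → EuclideanSpace ℝ (Fin n))
    (x y : EuclideanSpace ℝ (Fin n)) (hy : y ∈ zono v) : inner ℝ x y ≤ zsup v x := by
  obtain ⟨t, ht, rfl⟩ := hy
  rw [inner_sum]
  refine Finset.sum_le_sum fun i _ => ?_
  rw [inner_smul_right]
  calc t i * inner ℝ x (v i) ≤ |t i * inner ℝ x (v i)| := le_abs_self _
    _ = |t i| * |inner ℝ x (v i)| := abs_mul _ _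
    _ ≤ 1 * |inner ℝ x (v i)| := by gcongr; exact ht i
    _ = _ := one_mul _

lemma zono_inner_eq {m : ℕ} (v : Fin m → EuclideanSpace ℝ (Fin n))
    (x : EuclideanSpace ℝ (Fin n)) : ∃ y ∈ zono v, inner ℝ x y = zsup v x := by
  refine ⟨∑ i, (if 0 ≤ inner ℝ x (v i) then (1 : ℝ) else -1) • v i, ⟨_, fun i => ?_, rfl⟩, ?_⟩
  · split_ifs <;> simp
  · rw [inner_sum]
    refine Finset.sum_congr rfl fun i _ => ?_
    rw [inner_smul_right]
    split_ifs with h
    · rw [abs_of_nonneg h, one_mul]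
    · rw [abs_of_neg (not_le.1 h)]; ring

lemma zono_eq_image {m : ℕ} (v : Fin m → EuclideanSpace ℝ (Fin n)) :
    zono v = (fun t : Fin m → ℝ => ∑ i, t i • v i) '' (Set.pi univ fun _ => Icc (-1 : ℝ) 1) := by
  ext x
  constructor
  · rintro ⟨t, ht, rfl⟩
    exact ⟨t, fun i _ => abs_le.1 (ht i), rfl⟩
  · rintro ⟨t, ht, rfl⟩
    exact ⟨t, fun i => abs_le.2 (ht i (mem_univ i)), rfl⟩

lemma zono_isCompact {m : ℕ} (v : Fin m → EuclideanSpace ℝ (Fin n)) : IsCompact (zono v) := by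
  rw [zono_eq_image]
  exact (isCompact_univ_pi fun _ => isCompact_Icc).image (by fun_prop)

lemma zono_nonempty {m : ℕ} (v : Fin m → EuclideanSpace ℝ (Fin n)) : (zono v).Nonempty :=
  ⟨0, fun _ => 0, by simp, by simp⟩

lemma zono_convex {m : ℕ} (v : Fin m → EuclideanSpace ℝ (Fin n)) : Convex ℝ (zono v) := by
  rintro _ ⟨s, hs, rfl⟩ _ ⟨t, ht, rfl⟩ a b ha hb hab
  refine ⟨fun i => a * s i + b * t i, fun i => ?_, ?_⟩
  · calc |a * s i + b * t i| ≤ |a * s i| + |b * t i| := abs_add_le _ _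
      _ = a * |s i| + b * |t i| := by rw [abs_mul, abs_mul, abs_of_nonneg ha, abs_of_nonneg hb]
      _ ≤ a * 1 + b * 1 := by gcongr; exacts [hs i, ht i]
      _ = 1 := by rw [mul_one, mul_one, hab]
  · rw [Finset.smul_sum, Finset.smul_sum, ← Finset.sum_add_distrib]
    refine Finset.sum_congr rfl fun i _ => ?_
    rw [add_smul, mul_smul, mul_smul]

/-- One half of the comparison of support functions with the Hausdorff distance. -/
lemma exists_dist_le_of_support {C D : Set (EuclideanSpace ℝ (Fin n))}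
    {hC hD : EuclideanSpace ℝ (Fin n) → ℝ} {δ : ℝ} (hδ : 0 ≤ δ)
    (hDc : IsCompact D) (hDn : D.Nonempty) (hDv : Convex ℝ D)
    (h1 : ∀ x, ∀ y ∈ C, inner ℝ x y ≤ hC x)
    (h2 : ∀ x, ∃ y ∈ D, inner ℝ x y = hD x)
    (h3 : ∀ x, ‖x‖ = 1 → hC x - hD x ≤ δ) :
    ∀ y ∈ C, ∃ p ∈ D, dist y p ≤ δ := by
  intro y hy
  obtain ⟨p, hp, hpmin⟩ := exists_norm_eq_iInf_of_complete_convex hDn hDc.isComplete hDv y
  rw [norm_eq_iInf_iff_real_inner_le_zero hDv hp] at hpmin
  refine ⟨p, hp, ?_⟩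
  rw [dist_eq_norm]
  by_cases hu : y - p = 0
  · rw [hu]; simpa using hδ
  have hpos : 0 < ‖y - p‖ := norm_pos_iff.2 hu
  set u := y - p with hudef
  set e := (‖u‖)⁻¹ • u with hedef
  have he : ‖e‖ = 1 := by
    rw [hedef, norm_smul, norm_inv, norm_norm, inv_mul_cancel₀ hpos.ne']
  obtain ⟨q, hq, hq2⟩ := h2 e
  have h5 : inner ℝ u (q - p) ≤ 0 := hpmin q hq
  have h6 : inner ℝ e (q - p) ≤ 0 := by
    rw [hedef, real_inner_smul_left]
    exact mul_nonpos_of_nonneg_of_nonpos (by positivity) h5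
  have h7 : inner ℝ e (y - p) = ‖u‖ := by
    rw [hedef, real_inner_smul_left, ← hudef, real_inner_self_eq_norm_sq]
    field_simp
  have h8 := h1 e y hy
  have h9 := h3 e he
  rw [inner_sub_right] at h6 h7
  linarith

lemma zsup_lipschitz {m : ℕ} (v : Fin m → EuclideanSpace ℝ (Fin n))
    (x y : EuclideanSpace ℝ (Fin n)) :
    |zsup v x - zsup v y| ≤ (∑ i, ‖v i‖) * ‖x - y‖ := by
  unfold zsup
  rw [← Finset.sum_sub_distrib, Finset.sum_mul]
  refine (Finset.abs_sum_le_sum_abs _ _).trans (Finset.sum_le_sum fun i _ => ?_)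
  calc |(|inner ℝ x (v i)| - |inner ℝ y (v i)|)| ≤ |inner ℝ x (v i) - inner ℝ y (v i)| :=
        abs_abs_sub_abs_le_abs_sub _ _
    _ = |inner ℝ (x - y) (v i)| := by rw [inner_sub_left]
    _ ≤ ‖x - y‖ * ‖v i‖ := abs_real_inner_le_norm _ _
    _ = _ := mul_comm _ _

lemma norm_le_sum_abs (v : EuclideanSpace ℝ (Fin n)) :
    ‖v‖ ≤ ∑ j, |inner ℝ (EuclideanSpace.single j (1 : ℝ)) v| := by
  have h : v = ∑ j, (v j) • (EuclideanSpace.single j (1 : ℝ)) := by
    ext i
    simp [Finset.sum_apply, Pi.single_apply]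
  calc ‖v‖ = ‖∑ j, (v j) • (EuclideanSpace.single j (1 : ℝ))‖ := by rw [← h]
    _ ≤ ∑ j, ‖(v j) • (EuclideanSpace.single j (1 : ℝ))‖ := norm_sum_le _ _
    _ = ∑ j, |inner ℝ (EuclideanSpace.single j (1 : ℝ)) v| := by
        refine Finset.sum_congr rfl fun j _ => ?_
        rw [norm_smul, EuclideanSpace.inner_single_left]
        simp

lemma sum_norm_le {m : ℕ} (v : Fin m → EuclideanSpace ℝ (Fin n)) :
    ∑ i, ‖v i‖ ≤ ∑ j, zsup v (EuclideanSpace.single j (1 : ℝ)) := by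
  unfold zsup
  rw [Finset.sum_comm]
  exact Finset.sum_le_sum fun i _ => norm_le_sum_abs (v i)

/-- **Approximation by zonotopes.** A nonempty compact convex set whose support function lies in
`ZC` is a Hausdorff limit of zonotopes. -/
theorem hausdorff_approx {C : Set (EuclideanSpace ℝ (Fin n))} {h : EuclideanSpace ℝ (Fin n) → ℝ}
    (hCc : IsCompact C) (hCn : C.Nonempty) (hCv : Convex ℝ C)
    (h1 : ∀ x, ∀ y ∈ C, inner ℝ x y ≤ h x) (h2 : ∀ x, ∃ y ∈ C, inner ℝ x y = h x)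
    (hZ : h ∈ ZC n) (δ : ℝ) (hδ : 0 < δ) :
    ∃ (m : ℕ) (v : Fin m → EuclideanSpace ℝ (Fin n)),
      Metric.hausdorffDist C {x | ∃ t : Fin m → ℝ, (∀ i, |t i| ≤ 1) ∧ x = ∑ i, t i • v i} < δ := by
  -- bound on the set
  obtain ⟨R, hR0, hR⟩ := hCc.isBounded.exists_pos_norm_le
  have hLip : ∀ x y, h x - h y ≤ R * ‖x - y‖ := by
    intro x y
    obtain ⟨z, hz, hz2⟩ := h2 x
    have h3 := h1 y z hz
    have h4 : inner ℝ (x - y) z ≤ ‖x - y‖ * ‖z‖ := real_inner_le_norm _ _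
    rw [inner_sub_left] at h4
    have h5 := hR z hz
    nlinarith [norm_nonneg (x - y)]
  have hLip' : ∀ x y, |h x - h y| ≤ R * ‖x - y‖ := by
    intro x y
    rw [abs_le]
    constructor
    · have := hLip y x
      rw [norm_sub_rev] at this
      linarith
    · exact hLip x y
  -- Lipschitz bound for approximating zonotopes
  set L : ℝ := ∑ j : Fin n, (|h (EuclideanSpace.single j (1 : ℝ))| + 1) with hL
  have hL0 : 0 ≤ L := Finset.sum_nonneg fun j _ => by positivity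
  set η : ℝ := δ / (4 * (R + L + 1)) with hη
  have hη0 : 0 < η := by positivity
  obtain ⟨T, hT⟩ := (isCompact_sphere (0 : EuclideanSpace ℝ (Fin n)) 1).finite_cover_balls hη0
  obtain ⟨hTs, hTf, hTc⟩ := hT
  classical
  set S : Finset (EuclideanSpace ℝ (Fin n)) :=
    hTf.toFinset ∪ Finset.univ.image (fun j : Fin n => EuclideanSpace.single j (1 : ℝ)) with hS
  obtain ⟨g, ⟨m, v, rfl⟩, hg⟩ := hZ S (min 1 (δ / 4)) (by positivity)
  refine ⟨m, v, ?_⟩
  change Metric.hausdorffDist C (zono v) < δ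
  have hv : ∑ i, ‖v i‖ ≤ L := by
    refine (sum_norm_le v).trans (Finset.sum_le_sum fun j _ => ?_)
    have h3 : EuclideanSpace.single j (1 : ℝ) ∈ S := by
      rw [hS, Finset.mem_union]
      right
      exact Finset.mem_image_of_mem _ (Finset.mem_univ j)
    have h4 := hg _ h3
    have h5 : |h (EuclideanSpace.single j (1 : ℝ)) - zsup v (EuclideanSpace.single j (1 : ℝ))| < 1 :=
      h4.trans_le (min_le_left _ _)
    rw [abs_lt] at h5
    have h6 := le_abs_self (h (EuclideanSpace.single j (1 : ℝ)))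
    linarith [h5.1]
  have hunif : ∀ x, ‖x‖ = 1 → |h x - zsup v x| ≤ δ * (3 / 4) := by
    intro x hx
    have hx1 : x ∈ Metric.sphere (0 : EuclideanSpace ℝ (Fin n)) 1 := by simpa using hx
    have hx2 := hTc hx1
    rw [mem_iUnion₂] at hx2
    obtain ⟨p, hp, hxp⟩ := hx2
    rw [Metric.mem_ball, dist_eq_norm] at hxp
    have hpS : p ∈ S := by
      rw [hS, Finset.mem_union]
      left
      exact hTf.mem_toFinset.2 hp
    have h3 := hg p hpS
    have h3' : |h p - zsup v p| < δ / 4 := h3.trans_le (min_le_right _ _)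
    have h4 := hLip' x p
    have h5 := zsup_lipschitz v p x
    rw [norm_sub_rev] at h5
    have h6 : (∑ i, ‖v i‖) * ‖x - p‖ ≤ L * ‖x - p‖ := by
      gcongr
    have h7 : (R + L) * ‖x - p‖ ≤ δ / 4 := by
      calc (R + L) * ‖x - p‖ ≤ (R + L + 1) * η :=
            mul_le_mul (by linarith) hxp.le (norm_nonneg _) (by positivity)
        _ = δ / 4 := by
            rw [hη]; field_simp
    calc |h x - zsup v x| = |(h x - h p) + (h p - zsup v p) + (zsup v p - zsup v x)| := by ring_nf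
      _ ≤ |h x - h p| + |h p - zsup v p| + |zsup v p - zsup v x| := abs_add_three _ _ _
      _ ≤ δ * (3 / 4) := by nlinarith
  have hle : Metric.hausdorffDist C (zono v) ≤ δ * (3 / 4) := by
    refine Metric.hausdorffDist_le_of_mem_dist (by positivity) ?_ ?_
    · exact exists_dist_le_of_support (by positivity) (zono_isCompact v) (zono_nonempty v)
        (zono_convex v) h1 (zono_inner_eq v) fun x hx => (le_abs_self _).trans (hunif x hx)
    · exact exists_dist_le_of_support (by positivity) hCc hCn hCv (zono_inner_le v) h2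
        fun x hx => by
          have := hunif x hx
          rw [abs_sub_comm] at this
          exact (le_abs_self _).trans this
  linarith

end Pool.Agent.Lib.MP_217de7_gt
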