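import Mathlib
import Pool.Agent.Lib.MP_217de7_gt.Zono

/-!
# Gaussian averages

The function `x ↦ E |a ‖x'‖ g + b x_0|` (with `g` a standard Gaussian variable and `x'` the
orthogonal projection of `x` onto the complement of the axis) is a limit of support functions of
zonotopes, in every dimension; and a closed form for it.
-/

open Set Filter Topology MeasureTheory ProbabilityTheory

namespace Pool.Agent.Lib.MP_217de7_gt

variable {n : ℕ}

/-- Orthogonal projection onto the complement of the coordinate axis `i0`. -/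
noncomputable def pr (i0 : Fin n) (x : EuclideanSpace ℝ (Fin n)) : EuclideanSpace ℝ (Fin n) :=
  x - (x i0) • EuclideanSpace.single i0 (1 : ℝ)

/-- Distance of `x` to the coordinate axis `i0`. -/
noncomputable def rc (i0 : Fin n) (x : EuclideanSpace ℝ (Fin n)) : ℝ := ‖pr i0 x‖

lemma rc_nonneg (i0 : Fin n) (x : EuclideanSpace ℝ (Fin n)) : 0 ≤ rc i0 x := norm_nonneg _

lemma inner_single_right' (i0 : Fin n) (x : EuclideanSpace ℝ (Fin n)) :
    inner ℝ x (EuclideanSpace.single i0 (1 : ℝ)) = x i0 := by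
  rw [EuclideanSpace.inner_single_right]
  simp

lemma inner_single_left' (i0 : Fin n) (x : EuclideanSpace ℝ (Fin n)) :
    inner ℝ (EuclideanSpace.single i0 (1 : ℝ)) x = x i0 := by
  rw [EuclideanSpace.inner_single_left]
  simp

lemma inner_pr_right (i0 : Fin n) (x y : EuclideanSpace ℝ (Fin n)) :
    inner ℝ x (pr i0 y) = inner ℝ x y - x i0 * y i0 := by
  unfold pr
  rw [inner_sub_right, inner_smul_right, inner_single_right']
  ring

lemma inner_pr_left (i0 : Fin n) (x y : EuclideanSpace ℝ (Fin n)) :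
    inner ℝ (pr i0 x) y = inner ℝ x y - x i0 * y i0 := by
  unfold pr
  rw [inner_sub_left, inner_smul_left, inner_single_left']
  simp

lemma pr_apply_self (i0 : Fin n) (x : EuclideanSpace ℝ (Fin n)) : (pr i0 x) i0 = 0 := by
  rw [← inner_single_right', inner_pr_left, inner_single_right']
  simp

lemma inner_eq (i0 : Fin n) (x y : EuclideanSpace ℝ (Fin n)) :
    inner ℝ x y = inner ℝ (pr i0 x) (pr i0 y) + x i0 * y i0 := by
  rw [inner_pr_right, inner_pr_left, pr_apply_self]
  ring

lemma norm_sq_eq (i0 : Fin n) (x : EuclideanSpace ℝ (Fin n)) :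
    ‖x‖ ^ 2 = rc i0 x ^ 2 + (x i0) ^ 2 := by
  rw [← real_inner_self_eq_norm_sq, inner_eq i0, real_inner_self_eq_norm_sq, rc]
  ring

lemma inner_le_rc (i0 : Fin n) (x y : EuclideanSpace ℝ (Fin n)) :
    inner ℝ x y ≤ rc i0 x * rc i0 y + |x i0| * |y i0| := by
  rw [inner_eq i0]
  have h1 : inner ℝ (pr i0 x) (pr i0 y) ≤ rc i0 x * rc i0 y := real_inner_le_norm _ _
  have h2 : x i0 * y i0 ≤ |x i0| * |y i0| := by
    rw [← abs_mul]; exact le_abs_self _
  linarith

/-- A linear functional of a standard Gaussian vector is a Gaussian variable. -/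
lemma map_inner_stdGaussian (u : EuclideanSpace ℝ (Fin n)) :
    (stdGaussian (EuclideanSpace ℝ (Fin n))).map (fun G => inner ℝ u G) =
      (gaussianReal 0 1).map (fun y => ‖u‖ * y) := by
  have h1 := IsGaussian.map_eq_gaussianReal (μ := stdGaussian (EuclideanSpace ℝ (Fin n)))
    (innerSL ℝ u)
  rw [variance_dual_stdGaussian, integral_strongDual_stdGaussian] at h1
  have h2 : ‖(innerSL ℝ) u‖ = ‖u‖ := innerSL_apply_norm ℝ u
  rw [h2] at h1
  have h3 : (fun G => inner ℝ u G) = (⇑((innerSL ℝ) u) : EuclideanSpace ℝ (Fin n) → ℝ) := by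
    funext G
    simp
  rw [h3, h1, gaussianReal_map_const_mul]
  congr 1
  · simp
  · ext
    simp

lemma integrable_abs_affine (a b : ℝ) (u : EuclideanSpace ℝ (Fin n)) :
    Integrable (fun G => |a * inner ℝ u G + b|) (stdGaussian (EuclideanSpace ℝ (Fin n))) := by
  have h1 : Integrable (fun G => inner ℝ u G) (stdGaussian (EuclideanSpace ℝ (Fin n))) := by
    have := IsGaussian.integrable_dual (stdGaussian (EuclideanSpace ℝ (Fin n))) (innerSL ℝ u)
    refine this.congr (Eventually.of_forall fun G => ?_)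
    simp
  exact ((h1.const_mul a).add (integrable_const b)).abs

/-- `x ↦ E |a ‖x'‖ g + b x_0|` is a limit of support functions of zonotopes. -/
theorem gauss_mem_ZC (i0 : Fin n) (a b : ℝ) :
    (fun x : EuclideanSpace ℝ (Fin n) =>
      ∫ y, |a * rc i0 x * y + b * x i0| ∂(gaussianReal 0 1)) ∈ ZC n := by
  have key : ∀ x : EuclideanSpace ℝ (Fin n),
      ∫ y, |a * rc i0 x * y + b * x i0| ∂(gaussianReal 0 1) =
      ∫ G, |inner ℝ x (a • pr i0 G + b • EuclideanSpace.single i0 (1 : ℝ))|
        ∂(stdGaussian (EuclideanSpace ℝ (Fin n))) := by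
    intro x
    have h1 : ∀ G : EuclideanSpace ℝ (Fin n),
        inner ℝ x (a • pr i0 G + b • EuclideanSpace.single i0 (1 : ℝ)) =
        a * inner ℝ (pr i0 x) G + b * x i0 := by
      intro G
      rw [inner_add_right, inner_smul_right, inner_smul_right, inner_single_right',
        inner_pr_right, inner_pr_left]
    simp_rw [h1]
    have h2 : ∫ G, |a * inner ℝ (pr i0 x) G + b * x i0|
        ∂(stdGaussian (EuclideanSpace ℝ (Fin n))) =
        ∫ z, |a * z + b * x i0| ∂((stdGaussian (EuclideanSpace ℝ (Fin n))).map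
          (fun G => inner ℝ (pr i0 x) G)) := by
      rw [integral_map]
      · exact (by fun_prop : Continuous fun G : EuclideanSpace ℝ (Fin n) =>
          inner ℝ (pr i0 x) G).measurable.aemeasurable
      · exact (by fun_prop : Continuous fun z : ℝ => |a * z + b * x i0|).aestronglyMeasurable
    rw [h2, map_inner_stdGaussian, integral_map]
    · refine integral_congr_ae (Eventually.of_forall fun y => ?_)
      simp only [rc]
      ring_nf
    · fun_prop
    · exact (by fun_prop : Continuous fun z : ℝ => |a * z + b * x i0|).aestronglyMeasurable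
  have h0 : (fun x : EuclideanSpace ℝ (Fin n) =>
      ∫ y, |a * rc i0 x * y + b * x i0| ∂(gaussianReal 0 1)) =
      (fun x => ∫ G, (fun G x => |inner ℝ x (a • pr i0 G + b • EuclideanSpace.single i0 (1 : ℝ))|)
        G x ∂(stdGaussian (EuclideanSpace ℝ (Fin n)))) := by
    funext x
    exact key x
  rw [h0]
  refine ZC_integral _ _ (fun G => ZS_subset_ZC (ZS_single _)) fun x => ?_
  have h1 : ∀ G : EuclideanSpace ℝ (Fin n),
      inner ℝ x (a • pr i0 G + b • EuclideanSpace.single i0 (1 : ℝ)) =
      a * inner ℝ (pr i0 x) G + b * x i0 := by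
    intro G
    rw [inner_add_right, inner_smul_right, inner_smul_right, inner_single_right',
      inner_pr_right, inner_pr_left]
  simp_rw [h1]
  exact integrable_abs_affine a (b * x i0) (pr i0 x)

/-! ### The first absolute moment of a Gaussian variable -/

lemma integrable_abs_affine_real (a b : ℝ) :
    Integrable (fun y => |a * y + b|) (gaussianReal 0 1) := by
  have h1 : Integrable (fun y : ℝ => y) (gaussianReal 0 1) :=
    IsGaussian.integrable_fun_id
  exact ((h1.const_mul a).add (integrable_const b)).abs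

lemma abs_moment_neg (a b : ℝ) :
    ∫ y, |a * y + -b| ∂(gaussianReal 0 1) = ∫ y, |a * y + b| ∂(gaussianReal 0 1) := by
  have h1 : (gaussianReal 0 1).map (fun y => -y) = gaussianReal 0 1 := by
    rw [gaussianReal_map_neg]; simp
  calc ∫ y, |a * y + -b| ∂(gaussianReal 0 1)
      = ∫ y, |a * y + -b| ∂((gaussianReal 0 1).map (fun y => -y)) := by rw [h1]
    _ = ∫ y, |a * (-y) + -b| ∂(gaussianReal 0 1) := by
        rw [integral_map (by fun_prop)]
        exact (by fun_prop : Continuous fun y : ℝ => |a * y + -b|).aestronglyMeasurable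
    _ = ∫ y, |a * y + b| ∂(gaussianReal 0 1) := by
        refine integral_congr_ae (Eventually.of_forall fun y => ?_)
        change |a * (-y) + -b| = |a * y + b|
        rw [← abs_neg]
        ring_nf

lemma abs_moment_abs (a b : ℝ) :
    ∫ y, |a * y + abs b| ∂(gaussianReal 0 1) = ∫ y, |a * y + b| ∂(gaussianReal 0 1) := by
  rcases abs_cases b with ⟨h, _⟩ | ⟨h, _⟩
  · rw [h]
  · rw [h, abs_moment_neg]

lemma two_max (p q : ℝ) (hq : 0 ≤ q) : |p + q| + |p + -q| = 2 * max |p| q := by
  rcases le_total 0 p with hp | hp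
  · rw [abs_of_nonneg hp, abs_of_nonneg (by linarith)]
    rcases le_total p q with h | h
    · rw [max_eq_right h, abs_of_nonpos (by linarith)]; ring
    · rw [max_eq_left h, abs_of_nonneg (by linarith)]; ring
  · rw [abs_of_nonpos hp, abs_of_nonpos (show p + -q ≤ 0 by linarith)]
    rcases le_total (-p) q with h | h
    · rw [max_eq_right h, abs_of_nonneg (by linarith)]; ring
    · rw [max_eq_left h, abs_of_nonpos (by linarith)]; ring

lemma abs_moment_max (a b : ℝ) (hb : 0 ≤ b) :
    ∫ y, |a * y + b| ∂(gaussianReal 0 1) = ∫ y, max |a * y| b ∂(gaussianReal 0 1) := by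
  have h1 : ∫ y, (|a * y + b| + |a * y + -b|) ∂(gaussianReal 0 1) =
      ∫ y, |a * y + b| ∂(gaussianReal 0 1) + ∫ y, |a * y + -b| ∂(gaussianReal 0 1) :=
    integral_add (integrable_abs_affine_real a b) (integrable_abs_affine_real a (-b))
  rw [abs_moment_neg] at h1
  simp_rw [two_max _ _ hb] at h1
  rw [integral_const_mul] at h1
  linarith

/-- Standard Gaussian density. -/
noncomputable def gd (y : ℝ) : ℝ := (√(2 * Real.pi))⁻¹ * Real.exp (-(y ^ 2) / 2)

lemma gd_nonneg (y : ℝ) : 0 ≤ gd y := by unfold gd; positivity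

lemma gd_continuous : Continuous gd := by unfold gd; fun_prop

lemma gd_hasDerivAt (y : ℝ) : HasDerivAt gd (-(y * gd y)) y := by
  unfold gd
  have h1 : HasDerivAt (fun y : ℝ => -(y ^ 2) / 2) (-(2 * y) / 2) y := by
    have := ((hasDerivAt_pow 2 y).neg).div_const 2
    simpa using this
  have h2 := (h1.exp).const_mul ((√(2 * Real.pi))⁻¹)
  exact h2.congr_deriv (by ring)

lemma gd_tendsto : Tendsto gd atTop (𝓝 0) := by
  unfold gd
  have h1 : Tendsto (fun y : ℝ => -(y ^ 2) / 2) atTop atBot := by
    have h2 : Tendsto (fun y : ℝ => y ^ 2 / 2) atTop atTop :=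
      (tendsto_pow_atTop (by norm_num)).atTop_div_const (by norm_num)
    refine (tendsto_neg_atTop_atBot.comp h2).congr fun y => ?_
    simp [neg_div]
  have h3 := (Real.tendsto_exp_atBot.comp h1).const_mul ((√(2 * Real.pi))⁻¹)
  simpa using h3

lemma pdf_eq_gd (y : ℝ) : gaussianPDFReal 0 1 y = gd y := by
  unfold gaussianPDFReal gd
  simp

lemma integral_Ioi_mul_gd (α c : ℝ) (hα : 0 ≤ α) (hc : 0 ≤ c) :
    ∫ y in Ioi c, gd y * (α * y) = α * gd c := by
  have h := integral_Ioi_of_hasDerivAt_of_nonneg (g := fun y => -(α * gd y))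
    (g' := fun y => gd y * (α * y)) (a := c) (l := 0) ?_ ?_ ?_ ?_
  · rw [h]; ring
  · exact (gd_continuous.const_mul α).neg.continuousWithinAt
  · intro y _
    have := ((gd_hasDerivAt y).const_mul α).neg
    exact this.congr_deriv (by ring)
  · intro y hy
    have : 0 < y := lt_of_le_of_lt hc hy
    have := gd_nonneg y
    positivity
  · have := (gd_tendsto.const_mul α).neg
    simpa using this

lemma integrableOn_gd_max (α c : ℝ) :
    IntegrableOn (fun y => gd y * max (α * y) c) (Ioi 0) := by
  have h1 : Integrable (fun y : ℝ => max (α * y) c) (gaussianReal 0 1) := by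
    have h2 : Integrable (fun y : ℝ => y) (gaussianReal 0 1) := IsGaussian.integrable_fun_id
    exact (h2.const_mul α).sup (integrable_const c)
  rw [gaussianReal_of_var_ne_zero _ one_ne_zero,
    integrable_withDensity_iff_integrable_smul' (measurable_gaussianPDF 0 1)
      (Eventually.of_forall fun x => gaussianPDF_lt_top)] at h1
  refine (h1.congr (Eventually.of_forall fun y => ?_)).integrableOn
  simp only [toReal_gaussianPDF, smul_eq_mul, pdf_eq_gd]

lemma abs_moment_formula (α c : ℝ) (hα : 0 < α) (hc : 0 ≤ c) :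
    ∫ y, |α * y + c| ∂(gaussianReal 0 1) =
      2 * (c * ∫ y in (0 : ℝ)..(c / α), gd y) + 2 * (α * gd (c / α)) := by
  rw [abs_moment_max α c hc, integral_gaussianReal_eq_integral_smul one_ne_zero]
  have h1 : (fun y => gaussianPDFReal 0 1 y • max |α * y| c) =
      (fun y => (fun z => gd z * max (α * z) c) |y|) := by
    funext y
    have : gd |y| = gd y := by unfold gd; rw [sq_abs]
    simp only [smul_eq_mul, pdf_eq_gd, this, abs_mul, abs_of_pos hα]
  rw [h1]
  refine (integral_comp_abs (f := fun z => gd z * max (α * z) c)).trans ?_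
  have hca : 0 ≤ c / α := by positivity
  have h2 : Ioi (0 : ℝ) = Ioc 0 (c / α) ∪ Ioi (c / α) := (Ioc_union_Ioi_eq_Ioi hca).symm
  have hI := integrableOn_gd_max α c
  have h3 : ∫ y in Ioi 0, gd y * max (α * y) c =
      (∫ y in Ioc 0 (c / α), gd y * max (α * y) c) + ∫ y in Ioi (c / α), gd y * max (α * y) c := by
    conv_lhs => rw [h2]
    rw [setIntegral_union]
    · exact Set.disjoint_left.2 fun y h h' => (not_lt.2 h.2) h'
    · exact measurableSet_Ioi
    · exact hI.mono_set (fun y hy => hy.1)
    · exact hI.mono_set (fun y hy => lt_of_le_of_lt hca hy)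
  have h4 : ∫ y in Ioc 0 (c / α), gd y * max (α * y) c = c * ∫ y in (0 : ℝ)..(c / α), gd y := by
    rw [intervalIntegral.integral_of_le hca, ← integral_const_mul]
    refine setIntegral_congr_fun measurableSet_Ioc fun y hy => ?_
    have : α * y ≤ c := by
      have := hy.2
      rw [le_div_iff₀ hα] at this
      linarith
    simp only [max_eq_right this]
    ring
  have h5 : ∫ y in Ioi (c / α), gd y * max (α * y) c = α * gd (c / α) := by
    rw [← integral_Ioi_mul_gd α (c / α) hα.le hca]
    refine setIntegral_congr_fun measurableSet_Ioi fun y hy => ?_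
    have : c ≤ α * y := by
      have : c / α < y := hy
      rw [div_lt_iff₀ hα] at this
      linarith
    simp only [max_eq_left this]
  rw [h3, h4, h5]
  ring

/-- The kernel: `kk x t = E |√(π/2) g + √(π x) t|`. -/
noncomputable def kk (x t : ℝ) : ℝ :=
  Real.exp (-(x * t ^ 2)) + 2 * x * t * ∫ z in (0 : ℝ)..t, Real.exp (-(x * z ^ 2))

/-- The derivative of the kernel. -/
noncomputable def kk' (x t : ℝ) : ℝ := 2 * x * ∫ z in (0 : ℝ)..t, Real.exp (-(x * z ^ 2))

lemma kk_sub (x t : ℝ) : kk x t - t * kk' x t = Real.exp (-(x * t ^ 2)) := by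
  unfold kk kk'; ring

lemma kk_hasDerivAt (x t : ℝ) : HasDerivAt (kk x) (kk' x t) t := by
  unfold kk kk'
  have h1 : HasDerivAt (fun t : ℝ => Real.exp (-(x * t ^ 2)))
      (Real.exp (-(x * t ^ 2)) * (-(x * (2 * t)))) t := by
    have := ((hasDerivAt_pow 2 t).const_mul x).neg.exp
    simpa using this
  have hc : Continuous fun z : ℝ => Real.exp (-(x * z ^ 2)) := by fun_prop
  have h2 : HasDerivAt (fun t : ℝ => ∫ z in (0 : ℝ)..t, Real.exp (-(x * z ^ 2)))
      (Real.exp (-(x * t ^ 2))) t := hc.integral_hasStrictDerivAt 0 t |>.hasDerivAt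
  have h3 : HasDerivAt (fun t : ℝ => 2 * x * t) (2 * x) t := by
    simpa using (hasDerivAt_id t).const_mul (2 * x)
  have h4 := h1.add (h3.mul h2)
  exact h4.congr_deriv (by ring)

lemma kk_zero (x : ℝ) : kk x 0 = 1 := by simp [kk]

lemma kk'_zero (x : ℝ) : kk' x 0 = 0 := by simp [kk']

lemma abs_moment_kk (x t : ℝ) (hx : 0 ≤ x) (ht : 0 ≤ t) :
    ∫ y, |√(Real.pi / 2) * y + √(Real.pi * x) * t| ∂(gaussianReal 0 1) = kk x t := by
  have hα : 0 < √(Real.pi / 2) := Real.sqrt_pos.2 (by positivity)
  rw [abs_moment_formula _ _ hα (by positivity)]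
  have hpi := Real.pi_pos
  have e1 : √(Real.pi * x) * t / √(Real.pi / 2) = √(2 * x) * t := by
    rw [div_eq_iff hα.ne']
    have : √(2 * x) * √(Real.pi / 2) = √(Real.pi * x) := by
      rw [← Real.sqrt_mul (by positivity)]
      congr 1
      ring
    rw [← this]
    ring
  rw [e1]
  have e2 : gd (√(2 * x) * t) = (√(2 * Real.pi))⁻¹ * Real.exp (-(x * t ^ 2)) := by
    unfold gd
    congr 2
    rw [mul_pow, Real.sq_sqrt (by positivity)]
    ring
  have e3 : ∫ y in (0 : ℝ)..(√(2 * x) * t), gd y =
      √(2 * x) * ((√(2 * Real.pi))⁻¹ * ∫ z in (0 : ℝ)..t, Real.exp (-(x * z ^ 2))) := by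
    have h := intervalIntegral.mul_integral_comp_mul_left (f := gd) (a := 0) (b := t) (√(2 * x))
    rw [mul_zero] at h
    rw [← h]
    congr 1
    rw [← intervalIntegral.integral_const_mul]
    refine intervalIntegral.integral_congr fun z _ => ?_
    simp only [gd]
    congr 2
    rw [mul_pow, Real.sq_sqrt (by positivity)]
    ring
  rw [e2, e3]
  have e4 : √(2 * Real.pi) = 2 * √(Real.pi / 2) := by
    rw [show 2 * Real.pi = 2 ^ 2 * (Real.pi / 2) by ring, Real.sqrt_mul (by positivity),
      Real.sqrt_sq (by norm_num)]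
  have e5 : √(Real.pi * x) = √(Real.pi / 2) * √(2 * x) := by
    rw [← Real.sqrt_mul (by positivity)]
    congr 1
    ring
  have e6 : √(2 * x) * √(2 * x) = 2 * x := Real.mul_self_sqrt (by positivity)
  unfold kk
  rw [e4, e5]
  generalize (∫ z in (0 : ℝ)..t, Real.exp (-(x * z ^ 2))) = I
  field_simp
  linear_combination (t * I) * e6

lemma kk_ge (x t : ℝ) (hx : 0 ≤ x) (ht : 0 ≤ t) :
    |√(Real.pi * x) * t - kk x t| ≤ 1 := by
  have h1 := abs_moment_kk x t hx ht
  have h0 := abs_moment_kk 0 0 le_rfl le_rfl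
  rw [kk_zero] at h0
  simp only [mul_zero, Real.sqrt_zero, add_zero] at h0
  have h2 : √(Real.pi * x) * t = ∫ _y, √(Real.pi * x) * t ∂(gaussianReal 0 1) := by
    simp
  have h3 : √(Real.pi * x) * t - ∫ y, |√(Real.pi / 2) * y + √(Real.pi * x) * t| ∂(gaussianReal 0 1) =
      ∫ y, (√(Real.pi * x) * t - |√(Real.pi / 2) * y + √(Real.pi * x) * t|) ∂(gaussianReal 0 1) := by
    rw [integral_sub (integrable_const _) (integrable_abs_affine_real _ _)]
    simp
  rw [← h1, h3]
  calc |∫ y, (√(Real.pi * x) * t - |√(Real.pi / 2) * y + √(Real.pi * x) * t|) ∂(gaussianReal 0 1)|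
      ≤ ∫ y, |√(Real.pi * x) * t - abs (√(Real.pi / 2) * y + √(Real.pi * x) * t)|
          ∂(gaussianReal 0 1) := abs_integral_le_integral_abs
    _ ≤ ∫ y, |√(Real.pi / 2) * y| ∂(gaussianReal 0 1) := by
        refine integral_mono ?_ ?_ fun y => ?_
        · exact ((integrable_const _).sub (integrable_abs_affine_real _ _)).abs
        · have := integrable_abs_affine_real (√(Real.pi / 2)) 0
          simpa using this
        · have hp : 0 ≤ √(Real.pi * x) * t := by positivity
          calc |√(Real.pi * x) * t - abs (√(Real.pi / 2) * y + √(Real.pi * x) * t)|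
              = |(|√(Real.pi * x) * t| - abs (√(Real.pi / 2) * y + √(Real.pi * x) * t))| := by
                rw [abs_of_nonneg hp]
            _ ≤ |√(Real.pi * x) * t - (√(Real.pi / 2) * y + √(Real.pi * x) * t)| :=
                abs_abs_sub_abs_le_abs_sub _ _
            _ = |√(Real.pi / 2) * y| := by
                rw [← abs_neg]; ring_nf
    _ = 1 := h0

end Pool.Agent.Lib.MP_217de7_gt
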