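import Mathlib
import Pool.Agent.Lib.MP_217de7_gt.Gauss

/-!
# Completely monotone functions and rotation invariant zonoids

A quantitative form of the Bernstein theorem, and its consequence: if `u (t) - t u'(t) = f (t^2)`
with `f` completely monotone on `(-η, ∞)` then the rotation invariant function
`x ↦ ‖x'‖ u (|x_0| / ‖x'‖)` is a limit of support functions of zonotopes in every dimension.
-/

open Set Filter Topology MeasureTheory ProbabilityTheory

namespace Pool.Agent.Lib.MP_217de7_gt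

/-- `f k` is `(-1)^k` times the `k`-th derivative of `f 0`, and all `f k` are nonnegative on
`(-η, ∞)`, i.e. `f 0` is completely monotone there. -/
structure CMSeq (η : ℝ) (f : ℕ → ℝ → ℝ) : Prop where
  nonneg : ∀ k σ, -η < σ → 0 ≤ f k σ
  deriv : ∀ k σ, -η < σ → HasDerivAt (f k) (-(f (k + 1) σ)) σ

lemma CMSeq.shift {η : ℝ} {f : ℕ → ℝ → ℝ} (h : CMSeq η f) : CMSeq η (fun k => f (k + 1)) :=
  ⟨fun k σ hσ => h.nonneg (k + 1) σ hσ, fun k σ hσ => h.deriv (k + 1) σ hσ⟩

/-- Taylor remainder at `M`. -/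
noncomputable def TR (f : ℕ → ℝ → ℝ) (M : ℝ) (n : ℕ) (σ : ℝ) : ℝ :=
  f 0 σ - ∑ j ∈ Finset.range n, f j M * (M - σ) ^ j / (j.factorial : ℝ)

lemma TR_zero (f : ℕ → ℝ → ℝ) (M σ : ℝ) : TR f M 0 σ = f 0 σ := by simp [TR]

lemma TR_succ_self (f : ℕ → ℝ → ℝ) (M : ℝ) (n : ℕ) : TR f M (n + 1) M = 0 := by
  unfold TR
  rw [Finset.sum_range_succ']
  simp

lemma TR_hasDerivAt {η : ℝ} {f : ℕ → ℝ → ℝ} (h : CMSeq η f) (M : ℝ) (n : ℕ) {σ : ℝ}
    (hσ : -η < σ) :
    HasDerivAt (TR f M (n + 1)) (-(TR (fun k => f (k + 1)) M n σ)) σ := by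
  have h1 : ∀ j : ℕ, HasDerivAt (fun σ : ℝ => f (j + 1) M * (M - σ) ^ (j + 1) /
      ((j + 1).factorial : ℝ)) (-(f (j + 1) M * (M - σ) ^ j / (j.factorial : ℝ))) σ := by
    intro j
    have h2 : HasDerivAt (fun σ : ℝ => (M - σ) ^ (j + 1))
        (((j + 1 : ℕ) : ℝ) * (M - σ) ^ j * (-1)) σ := by
      have := ((hasDerivAt_id σ).const_sub M).fun_pow (j + 1)
      simpa using this
    have h3 := (h2.const_mul (f (j + 1) M)).div_const ((j + 1).factorial : ℝ)
    refine h3.congr_deriv ?_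
    rw [Nat.factorial_succ]
    have : (j.factorial : ℝ) ≠ 0 := by positivity
    have : ((j : ℝ) + 1) ≠ 0 := by positivity
    push_cast
    field_simp
  have h4 : HasDerivAt (fun σ : ℝ => ∑ j ∈ Finset.range n, f (j + 1) M * (M - σ) ^ (j + 1) /
      ((j + 1).factorial : ℝ))
      (∑ j ∈ Finset.range n, -(f (j + 1) M * (M - σ) ^ j / (j.factorial : ℝ))) σ :=
    HasDerivAt.fun_sum fun j _ => h1 j
  have h5 : (TR f M (n + 1)) = fun σ : ℝ => f 0 σ - (∑ j ∈ Finset.range n,
      f (j + 1) M * (M - σ) ^ (j + 1) / ((j + 1).factorial : ℝ)) - f 0 M := by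
    funext σ
    unfold TR
    rw [Finset.sum_range_succ']
    simp only [pow_zero, Nat.factorial_zero, Nat.cast_one]
    ring
  rw [h5]
  have h6 := ((h.deriv 0 σ hσ).sub h4).sub_const (f 0 M)
  refine h6.congr_deriv ?_
  unfold TR
  rw [Finset.sum_neg_distrib]
  ring

lemma TR_nonneg {η : ℝ} (M : ℝ) (n : ℕ) : ∀ {f : ℕ → ℝ → ℝ}, CMSeq η f →
    ∀ {σ : ℝ}, -η < σ → σ ≤ M → 0 ≤ TR f M n σ := by
  induction n with
  | zero =>
    intro f h σ hσ _
    rw [TR_zero]
    exact h.nonneg 0 σ hσ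
  | succ n ih =>
    intro f h σ hσ hM
    have h1 : AntitoneOn (TR f M (n + 1)) (Icc σ M) := by
      refine antitoneOn_of_deriv_nonpos (convex_Icc σ M) ?_ ?_ ?_
      · intro y hy
        exact (TR_hasDerivAt h M n (lt_of_lt_of_le hσ hy.1)).continuousAt.continuousWithinAt
      · intro y hy
        rw [interior_Icc] at hy
        exact (TR_hasDerivAt h M n (hσ.trans hy.1)).differentiableAt.differentiableWithinAt
      · intro y hy
        rw [interior_Icc] at hy
        rw [(TR_hasDerivAt h M n (hσ.trans hy.1)).deriv]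
        have := ih h.shift (hσ.trans hy.1) hy.2.le
        linarith
    have h2 := h1 (left_mem_Icc.2 hM) (right_mem_Icc.2 hM) hM
    rw [TR_succ_self] at h2
    exact h2

lemma CMSeq.antitone {η : ℝ} {f : ℕ → ℝ → ℝ} (h : CMSeq η f) {a b : ℝ} (ha : -η < a)
    (hab : a ≤ b) : f 0 b ≤ f 0 a := by
  have h1 : AntitoneOn (f 0) (Icc a b) := by
    refine antitoneOn_of_deriv_nonpos (convex_Icc a b) ?_ ?_ ?_
    · intro y hy
      exact (h.deriv 0 y (lt_of_lt_of_le ha hy.1)).continuousAt.continuousWithinAt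
    · intro y hy
      rw [interior_Icc] at hy
      exact (h.deriv 0 y (ha.trans hy.1)).differentiableAt.differentiableWithinAt
    · intro y hy
      rw [interior_Icc] at hy
      rw [(h.deriv 0 y (ha.trans hy.1)).deriv]
      have := h.nonneg 1 y (ha.trans hy.1)
      simp only [zero_add]
      linarith
  exact h1 (left_mem_Icc.2 hab) (right_mem_Icc.2 hab) hab

lemma TR_scale {η : ℝ} (M : ℝ) (n : ℕ) : ∀ {f : ℕ → ℝ → ℝ}, CMSeq η f →
    ∀ {l h : ℝ}, 0 ≤ l → l ≤ 1 → 0 ≤ h → -η < M - h →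
      TR f M n (M - l * h) ≤ l ^ n * TR f M n (M - h) := by
  induction n with
  | zero =>
    intro f hf l h hl0 hl1 hh hM
    rw [TR_zero, TR_zero, pow_zero, one_mul]
    exact hf.antitone hM (by nlinarith)
  | succ n ih =>
    intro f hf l h hl0 hl1 hh hM
    have hd : ∀ y ∈ Icc 0 h, HasDerivAt (fun y => l ^ (n + 1) * TR f M (n + 1) (M - y) -
        TR f M (n + 1) (M - l * y))
        (l ^ (n + 1) * TR (fun k => f (k + 1)) M n (M - y) -
          l * TR (fun k => f (k + 1)) M n (M - l * y)) y := by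
      intro y hy
      have hy1 : -η < M - y := by linarith [hy.2]
      have hy2 : -η < M - l * y := by nlinarith [hy.1, hy.2]
      have h1 : HasDerivAt (fun y => TR f M (n + 1) (M - y))
          (TR (fun k => f (k + 1)) M n (M - y)) y := by
        have h2 := (TR_hasDerivAt hf M n hy1)
        have h3 : HasDerivAt (fun y : ℝ => M - y) (-1) y := by
          simpa using (hasDerivAt_id y).const_sub M
        exact (h2.comp y h3).congr_deriv (by ring)
      have h4 : HasDerivAt (fun y => TR f M (n + 1) (M - l * y))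
          (l * TR (fun k => f (k + 1)) M n (M - l * y)) y := by
        have h2 := (TR_hasDerivAt hf M n hy2)
        have h3 : HasDerivAt (fun y : ℝ => M - l * y) (-l) y := by
          simpa using ((hasDerivAt_id y).const_mul l).const_sub M
        refine (HasDerivAt.comp y h2 h3).congr_deriv ?_
        ring
      exact (h1.const_mul _).sub h4
    have h1 : MonotoneOn (fun y => l ^ (n + 1) * TR f M (n + 1) (M - y) -
        TR f M (n + 1) (M - l * y)) (Icc 0 h) := by
      refine monotoneOn_of_deriv_nonneg (convex_Icc 0 h) ?_ ?_ ?_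
      · intro y hy
        exact (hd y hy).continuousAt.continuousWithinAt
      · intro y hy
        exact (hd y (interior_subset hy)).differentiableAt.differentiableWithinAt
      · intro y hy
        have hy' := interior_subset hy
        rw [(hd y hy').deriv]
        have h5 := ih hf.shift hl0 hl1 hy'.1 (show -η < M - y by linarith [hy'.2])
        have h6 : l * TR (fun k => f (k + 1)) M n (M - l * y) ≤
            l * (l ^ n * TR (fun k => f (k + 1)) M n (M - y)) :=
          mul_le_mul_of_nonneg_left h5 hl0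
        rw [pow_succ]
        linarith
    have h2 := h1 (left_mem_Icc.2 hh) (right_mem_Icc.2 hh) hh
    simp only [mul_zero, sub_zero, TR_succ_self] at h2
    linarith

lemma TR_le {η : ℝ} (M : ℝ) (n : ℕ) {f : ℕ → ℝ → ℝ} (hf : CMSeq η f) {σ : ℝ}
    (hσ : -η < σ) (hM : σ ≤ M) : TR f M n σ ≤ f 0 σ := by
  unfold TR
  have : 0 ≤ ∑ j ∈ Finset.range n, f j M * (M - σ) ^ j / (j.factorial : ℝ) := by
    refine Finset.sum_nonneg fun j _ => ?_
    have h1 := hf.nonneg j M (hσ.trans_le hM)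
    have h2 : 0 ≤ M - σ := by linarith
    positivity
  linarith

/-- Geometric decay of the Taylor remainder. -/
lemma TR_decay {η η' : ℝ} (hη' : 0 < η') (hηη : η' < η) {M : ℝ} (hM : 0 < M) (n : ℕ)
    {f : ℕ → ℝ → ℝ} (hf : CMSeq η f) {σ : ℝ} (h0 : 0 ≤ σ) (h1 : σ ≤ M) :
    TR f M n σ ≤ (M / (M + η')) ^ n * f 0 (-η') := by
  have hp : 0 < M + η' := by linarith
  set l := (M - σ) / (M + η') with hl
  have hl0 : 0 ≤ l := div_nonneg (by linarith) hp.le
  have hl1 : l ≤ M / (M + η') := by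
    rw [hl]; gcongr; linarith
  have hl2 : M / (M + η') ≤ 1 := by
    rw [div_le_one hp]; linarith
  have h2 := TR_scale M n hf hl0 (hl1.trans hl2) hp.le (show -η < M - (M + η') by linarith)
  have h3 : M - l * (M + η') = σ := by
    rw [hl]; field_simp; ring
  have h4 : M - (M + η') = -η' := by ring
  rw [h3, h4] at h2
  have h5 : TR f M n (-η') ≤ f 0 (-η') := TR_le M n hf (by linarith) (by linarith)
  have h6 : 0 ≤ TR f M n (-η') := TR_nonneg M n hf (by linarith) (by linarith)
  calc TR f M n σ ≤ l ^ n * TR f M n (-η') := h2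
    _ ≤ (M / (M + η')) ^ n * f 0 (-η') := by gcongr

/-- Comparison of `(1-y)^j` with `exp (-j y)`. -/
lemma pow_exp_bound (j : ℕ) {y : ℝ} (h0 : 0 ≤ y) (h1 : y ≤ 1) :
    |(1 - y) ^ j - Real.exp (-(j * y))| ≤ 3 * y := by
  set a := Real.exp (-y) with ha
  have ha0 : 0 < a := Real.exp_pos _
  have hba : 1 - y ≤ a := by
    have := Real.add_one_le_exp (-y); linarith
  have hb0 : 0 ≤ 1 - y := by linarith
  have e1 : Real.exp (-(j * y)) = a ^ j := by
    rw [ha, ← Real.exp_nat_mul]; ring_nf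
  rw [e1]
  have hmono : (1 - y) ^ j ≤ a ^ j := pow_le_pow_left₀ hb0 hba j
  rw [abs_sub_comm, abs_of_nonneg (by linarith)]
  -- a (a^j - b^j) ≤ j (a - b) a^j
  have h2 : ∀ k : ℕ, a * (a ^ k - (1 - y) ^ k) ≤ k * (a - (1 - y)) * a ^ k := by
    intro k
    induction k with
    | zero => simp
    | succ k ih =>
      have h3 : (1 - y) ^ k ≤ a ^ k := pow_le_pow_left₀ hb0 hba k
      have h4 : 0 ≤ a - (1 - y) := by linarith
      have h5 : a * (a ^ (k + 1) - (1 - y) ^ (k + 1)) =
          a * (a * (a ^ k - (1 - y) ^ k)) + a * ((1 - y) ^ k * (a - (1 - y))) := by ring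
      rw [h5]
      have h6 : a * (a * (a ^ k - (1 - y) ^ k)) ≤ a * (k * (a - (1 - y)) * a ^ k) :=
        mul_le_mul_of_nonneg_left ih ha0.le
      have h7 : a * ((1 - y) ^ k * (a - (1 - y))) ≤ a * (a ^ k * (a - (1 - y))) := by
        gcongr
      push_cast
      calc _ ≤ a * (k * (a - (1 - y)) * a ^ k) + a * (a ^ k * (a - (1 - y))) := add_le_add h6 h7
        _ = _ := by ring
  have h3 := h2 j
  -- a - b ≤ y^2
  have h4 : a - (1 - y) ≤ y ^ 2 := by
    have h5 : 1 + y ≤ Real.exp y := by have := Real.add_one_le_exp y; linarith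
    have h6 : a * Real.exp y = 1 := by rw [ha, ← Real.exp_add]; simp
    have h7 : a * (1 + y) ≤ 1 := by nlinarith
    nlinarith
  -- j y a^j ≤ 1
  have h5 : j * y * a ^ j ≤ 1 := by
    have h6 : (j : ℝ) * y + 1 ≤ Real.exp (j * y) := Real.add_one_le_exp _
    have h7 : a ^ j * Real.exp (j * y) = 1 := by rw [← e1, ← Real.exp_add]; simp
    have h8 : 0 < a ^ j := by positivity
    nlinarith
  have h6 : a * (a ^ j - (1 - y) ^ j) ≤ y := by
    calc a * (a ^ j - (1 - y) ^ j) ≤ j * (a - (1 - y)) * a ^ j := h3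
      _ ≤ j * y ^ 2 * a ^ j := by gcongr
      _ = y * (j * y * a ^ j) := by ring
      _ ≤ y * 1 := by gcongr
      _ = y := mul_one y
  -- 1/3 ≤ a
  have h7 : 1 / 3 ≤ a := by
    have h8 : Real.exp (-1) ≤ a := by rw [ha]; exact Real.exp_le_exp.2 (by linarith)
    have h9 : Real.exp 1 < 3 := Real.exp_one_lt_three
    have h10 : Real.exp (-1) * Real.exp 1 = 1 := by rw [← Real.exp_add]; simp
    have h11 : 0 < Real.exp (-1) := Real.exp_pos _
    nlinarith
  have h8 : 0 ≤ a ^ j - (1 - y) ^ j := by linarith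
  nlinarith

/-- Growth lemma: if `v - t v'` is at most `δ t²` and `v 0 = v' 0 = 0` then `|v| ≤ δ t²`. -/
lemma growth {v v' : ℝ → ℝ} {T δ : ℝ}
    (hv : ∀ t, HasDerivAt v (v' t) t) (h0 : v 0 = 0) (h0' : v' 0 = 0)
    (hb : ∀ t, 0 < t → t ≤ T → |v t - t * v' t| ≤ δ * t ^ 2) :
    ∀ t, 0 ≤ t → t ≤ T → |v t| ≤ δ * t ^ 2 := by
  intro t ht hT
  rcases ht.eq_or_lt with rfl | htpos
  · simp [h0]
  have hcont : ContinuousOn (dslope v 0) (Icc 0 t) := by
    intro y hy
    rcases hy.1.eq_or_lt with rfl | hy0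
    · exact (continuousAt_dslope_same.2 (hv 0).differentiableAt).continuousWithinAt
    · exact ((continuousAt_dslope_of_ne hy0.ne').2 (hv y).continuousAt).continuousWithinAt
  have hder : ∀ y ∈ Ioo 0 t, HasDerivAt (dslope v 0) ((y * v' y - v y) / y ^ 2) y := by
    intro y hy
    have hy0 : y ≠ 0 := hy.1.ne'
    have h1 : HasDerivAt (fun y => v y / y) ((v' y * y - v y * 1) / y ^ 2) y :=
      (hv y).div (hasDerivAt_id y) hy0
    have h2 : (fun y => v y / y) =ᶠ[𝓝 y] dslope v 0 := by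
      filter_upwards [isOpen_ne.mem_nhds hy0] with z hz
      rw [dslope_of_ne _ hz, slope_def_field, h0]
      simp
    exact (h1.congr_of_eventuallyEq h2.symm).congr_deriv (by ring)
  obtain ⟨c, hc, hc2⟩ := exists_hasDerivAt_eq_slope _ _ htpos hcont hder
  have h3 : dslope v 0 0 = 0 := by
    rw [dslope_same, (hv 0).deriv, h0']
  have h4 : dslope v 0 t = v t / t := by
    rw [dslope_of_ne _ htpos.ne', slope_def_field, h0]
    simp
  rw [h3, h4] at hc2
  have h5 : |(c * v' c - v c) / c ^ 2| ≤ δ := by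
    have hc0 : 0 < c ^ 2 := pow_pos hc.1 2
    rw [abs_div, abs_of_pos hc0, div_le_iff₀ hc0, abs_sub_comm]
    exact hb c hc.1 (hc.2.le.trans hT)
  rw [hc2] at h5
  have h6 : v t / t - 0 = v t / t := by ring
  have h7 : (v t / t - 0) / (t - 0) = v t / t ^ 2 := by
    field_simp; ring
  rw [h7, abs_div, abs_of_pos (pow_pos htpos 2), div_le_iff₀ (pow_pos htpos 2)] at h5
  exact h5

/-- Approximation of `u` by nonnegative combinations of the kernels `kk x`. -/
theorem kernel_approx {η : ℝ} (hη : 0 < η) {f : ℕ → ℝ → ℝ} (hf : CMSeq η f)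
    {u u' : ℝ → ℝ} (hu : ∀ t, HasDerivAt u (u' t) t)
    (hu1 : ∀ t, u t - t * u' t = f 0 (t ^ 2)) (hu0 : u' 0 = 0)
    {T ε : ℝ} (hT : 0 < T) (hε : 0 < ε) :
    ∃ (c0 : ℝ) (m : ℕ) (C x : ℕ → ℝ), 0 ≤ c0 ∧ (∀ j, 0 ≤ C j) ∧ (∀ j, 0 ≤ x j) ∧
      c0 + ∑ j ∈ Finset.range m, C j = u 0 ∧
      ∀ t, 0 ≤ t → t ≤ T → |u t - (c0 + ∑ j ∈ Finset.range m, C j * kk (x j) t)| ≤ ε := by
  set η' := η / 2 with hη'
  have hη'0 : 0 < η' := by positivity
  have hη'1 : η' < η := by rw [hη']; linarith
  have hneg : ∀ σ : ℝ, 0 ≤ σ → -η < σ := fun σ h => by linarith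
  have hf00 : 0 ≤ f 0 0 := hf.nonneg 0 0 (hneg 0 le_rfl)
  have hf1 : 0 ≤ f 1 (-η') := hf.nonneg 1 (-η') (by linarith)
  -- choice of M
  obtain ⟨M, hM1, hM2, hM3⟩ : ∃ M : ℝ, 0 < M ∧ T ^ 2 ≤ M ∧ 3 * f 0 0 / M * T ^ 2 ≤ ε / 2 := by
    refine ⟨T ^ 2 + 6 * f 0 0 * T ^ 2 / ε, by positivity, ?_, ?_⟩
    · have : 0 ≤ 6 * f 0 0 * T ^ 2 / ε := by positivity
      linarith
    · have hpos : 0 < T ^ 2 + 6 * f 0 0 * T ^ 2 / ε := by positivity
      rw [div_mul_eq_mul_div, div_le_iff₀ hpos]
      have : ε / 2 * (6 * f 0 0 * T ^ 2 / ε) = 3 * f 0 0 * T ^ 2 := by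
        field_simp; ring
      nlinarith [sq_nonneg T]
  have hq0 : 0 ≤ M / (M + η') := by positivity
  have hq1 : M / (M + η') < 1 := by
    rw [div_lt_one (by positivity)]; linarith
  obtain ⟨m, hm⟩ : ∃ m : ℕ, (M / (M + η')) ^ m * f 1 (-η') * T ^ 2 ≤ ε / 2 := by
    have h1 : Tendsto (fun m : ℕ => (M / (M + η')) ^ m * f 1 (-η') * T ^ 2) atTop (𝓝 0) := by
      have := ((tendsto_pow_atTop_nhds_zero_of_lt_one hq0 hq1).mul_const (f 1 (-η'))).mul_const
        (T ^ 2)
      simpa using this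
    exact ((h1.eventually (ge_mem_nhds (show (0 : ℝ) < ε / 2 by positivity))).exists)
  set R0 := TR f M (m + 1) 0 with hR0
  set C : ℕ → ℝ := fun j => f j M * M ^ j / (j.factorial : ℝ) with hC
  set x : ℕ → ℝ := fun j => j / M with hx
  have hR0n : 0 ≤ R0 := TR_nonneg M (m + 1) hf (hneg 0 le_rfl) hM1.le
  have hCn : ∀ j, 0 ≤ C j := by
    intro j
    have := hf.nonneg j M (hneg M hM1.le)
    simp only [hC]
    positivity
  have hsum : R0 + ∑ j ∈ Finset.range (m + 1), C j = f 0 0 := by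
    rw [hR0]
    unfold TR
    simp only [sub_zero, hC]
    ring
  have hu00 : u 0 = f 0 0 := by
    have := hu1 0
    simpa using this
  refine ⟨R0, m + 1, C, x, hR0n, hCn, fun j => by simp only [hx]; positivity,
    by rw [hsum, hu00], ?_⟩
  -- the difference
  set δ := (M / (M + η')) ^ m * f 1 (-η') + 3 * f 0 0 / M with hδ
  have hδ0 : 0 ≤ δ := by positivity
  have hgrow : ∀ t, 0 ≤ t → t ≤ T →
      |u t - (R0 + ∑ j ∈ Finset.range (m + 1), C j * kk (x j) t)| ≤ δ * t ^ 2 := by
    refine growth (v' := fun t => u' t - ∑ j ∈ Finset.range (m + 1), C j * kk' (x j) t)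
      ?_ ?_ ?_ ?_
    · intro t
      have h1 : HasDerivAt (fun t => R0 + ∑ j ∈ Finset.range (m + 1), C j * kk (x j) t)
          (∑ j ∈ Finset.range (m + 1), C j * kk' (x j) t) t := by
        have h2 : HasDerivAt (fun t => ∑ j ∈ Finset.range (m + 1), C j * kk (x j) t)
            (∑ j ∈ Finset.range (m + 1), C j * kk' (x j) t) t :=
          HasDerivAt.fun_sum fun j _ => (kk_hasDerivAt (x j) t).const_mul (C j)
        exact h2.const_add R0
      exact (hu t).sub h1
    · simp only [kk_zero, mul_one]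
      rw [hsum, hu00, sub_self]
    · simp only [kk'_zero, mul_zero, Finset.sum_const_zero, hu0, sub_self]
    · intro t ht htT
      have ht2 : 0 ≤ t ^ 2 := sq_nonneg t
      have htM : t ^ 2 ≤ M := (pow_le_pow_left₀ ht.le htT 2).trans hM2
      have e1 : u t - (R0 + ∑ j ∈ Finset.range (m + 1), C j * kk (x j) t) -
          t * (u' t - ∑ j ∈ Finset.range (m + 1), C j * kk' (x j) t) =
          f 0 (t ^ 2) - (R0 + ∑ j ∈ Finset.range (m + 1), C j * Real.exp (-(x j * t ^ 2))) := by
        have h1 : ∑ j ∈ Finset.range (m + 1), C j * Real.exp (-(x j * t ^ 2)) =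
            (∑ j ∈ Finset.range (m + 1), C j * kk (x j) t) -
            t * ∑ j ∈ Finset.range (m + 1), C j * kk' (x j) t := by
          rw [Finset.mul_sum, ← Finset.sum_sub_distrib]
          refine Finset.sum_congr rfl fun j _ => ?_
          rw [← kk_sub]; ring
        rw [h1, ← hu1 t]
        ring
      rw [e1]
      have e2 : f 0 (t ^ 2) = TR f M (m + 1) (t ^ 2) +
          ∑ j ∈ Finset.range (m + 1), C j * (1 - t ^ 2 / M) ^ j := by
        unfold TR
        have : ∑ j ∈ Finset.range (m + 1), C j * (1 - t ^ 2 / M) ^ j =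
            ∑ j ∈ Finset.range (m + 1), f j M * (M - t ^ 2) ^ j / (j.factorial : ℝ) := by
          refine Finset.sum_congr rfl fun j _ => ?_
          simp only [hC]
          have h2 : (M - t ^ 2) = M * (1 - t ^ 2 / M) := by field_simp
          rw [h2, mul_pow]
          ring
        rw [this]
        ring
      have e3 : f 0 (t ^ 2) - (R0 + ∑ j ∈ Finset.range (m + 1), C j * Real.exp (-(x j * t ^ 2))) =
          (TR f M (m + 1) (t ^ 2) - R0) +
          ∑ j ∈ Finset.range (m + 1), C j * ((1 - t ^ 2 / M) ^ j - Real.exp (-(x j * t ^ 2))) := by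
        rw [e2]
        simp only [mul_sub, Finset.sum_sub_distrib]
        ring
      rw [e3]
      have hy0 : 0 ≤ t ^ 2 / M := by positivity
      have hy1 : t ^ 2 / M ≤ 1 := by rw [div_le_one hM1]; exact htM
      have b1 : |∑ j ∈ Finset.range (m + 1), C j * ((1 - t ^ 2 / M) ^ j -
          Real.exp (-(x j * t ^ 2)))| ≤ 3 * f 0 0 / M * t ^ 2 := by
        calc |∑ j ∈ Finset.range (m + 1), C j * ((1 - t ^ 2 / M) ^ j -
              Real.exp (-(x j * t ^ 2)))|
            ≤ ∑ j ∈ Finset.range (m + 1), |C j * ((1 - t ^ 2 / M) ^ j -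
              Real.exp (-(x j * t ^ 2)))| := Finset.abs_sum_le_sum_abs _ _
          _ ≤ ∑ j ∈ Finset.range (m + 1), C j * (3 * (t ^ 2 / M)) := by
              refine Finset.sum_le_sum fun j _ => ?_
              rw [abs_mul, abs_of_nonneg (hCn j)]
              refine mul_le_mul_of_nonneg_left ?_ (hCn j)
              have h3 : x j * t ^ 2 = j * (t ^ 2 / M) := by simp only [hx]; ring
              rw [h3]
              exact pow_exp_bound j hy0 hy1
          _ = (∑ j ∈ Finset.range (m + 1), C j) * (3 * (t ^ 2 / M)) := by rw [Finset.sum_mul]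
          _ ≤ f 0 0 * (3 * (t ^ 2 / M)) := by
              have : ∑ j ∈ Finset.range (m + 1), C j ≤ f 0 0 := by linarith
              gcongr
          _ = _ := by ring
      have b2 : |TR f M (m + 1) (t ^ 2) - R0| ≤
          (M / (M + η')) ^ m * f 1 (-η') * t ^ 2 := by
        have ht2p : 0 < t ^ 2 := pow_pos ht 2
        have hc : ContinuousOn (TR f M (m + 1)) (Icc 0 (t ^ 2)) := fun y hy =>
          (TR_hasDerivAt hf M m (hneg y hy.1)).continuousAt.continuousWithinAt
        obtain ⟨c, hc1, hc2⟩ := exists_hasDerivAt_eq_slope (TR f M (m + 1))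
          (fun σ => -(TR (fun k => f (k + 1)) M m σ)) ht2p hc
          (fun y hy => TR_hasDerivAt hf M m (hneg y hy.1.le))
        have h3 : TR f M (m + 1) (t ^ 2) - R0 = -(TR (fun k => f (k + 1)) M m c) * t ^ 2 := by
          rw [hc2]; field_simp; ring
        have h4 : TR (fun k => f (k + 1)) M m c ≤ (M / (M + η')) ^ m * f 1 (-η') :=
          TR_decay hη'0 hη'1 hM1 m hf.shift hc1.1.le (hc1.2.le.trans htM)
        have h5 : 0 ≤ TR (fun k => f (k + 1)) M m c :=
          TR_nonneg M m hf.shift (hneg c hc1.1.le) (hc1.2.le.trans htM)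
        rw [h3, abs_mul, abs_neg, abs_of_nonneg h5, abs_of_nonneg ht2]
        gcongr
      calc |(TR f M (m + 1) (t ^ 2) - R0) +
          ∑ j ∈ Finset.range (m + 1), C j * ((1 - t ^ 2 / M) ^ j - Real.exp (-(x j * t ^ 2)))|
          ≤ |TR f M (m + 1) (t ^ 2) - R0| +
            |∑ j ∈ Finset.range (m + 1), C j * ((1 - t ^ 2 / M) ^ j -
              Real.exp (-(x j * t ^ 2)))| := abs_add_le _ _
        _ ≤ (M / (M + η')) ^ m * f 1 (-η') * t ^ 2 + 3 * f 0 0 / M * t ^ 2 := add_le_add b2 b1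
        _ = δ * t ^ 2 := by rw [hδ]; ring
  intro t ht htT
  calc |u t - (R0 + ∑ j ∈ Finset.range (m + 1), C j * kk (x j) t)| ≤ δ * t ^ 2 := hgrow t ht htT
    _ ≤ δ * T ^ 2 := by gcongr
    _ ≤ ε := by rw [hδ, add_mul]; linarith

/-- The rotation invariant function attached to a profile `u` with slope `L` at infinity. -/
noncomputable def RI {n : ℕ} (i0 : Fin n) (u : ℝ → ℝ) (L : ℝ) (x : EuclideanSpace ℝ (Fin n)) :
    ℝ :=
  if rc i0 x = 0 then L * |x i0| else rc i0 x * u (|x i0| / rc i0 x)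

lemma gauss_eq_kk {n : ℕ} (i0 : Fin n) {x : EuclideanSpace ℝ (Fin n)} (hx : 0 < rc i0 x)
    {y : ℝ} (hy : 0 ≤ y) :
    ∫ z, |√(Real.pi / 2) * rc i0 x * z + √(Real.pi * y) * x i0| ∂(gaussianReal 0 1) =
      rc i0 x * kk y (|x i0| / rc i0 x) := by
  rw [← abs_moment_abs, abs_mul, abs_of_nonneg (Real.sqrt_nonneg _),
    ← abs_moment_kk y (|x i0| / rc i0 x) hy (by positivity), ← integral_const_mul]
  refine integral_congr_ae (Eventually.of_forall fun z => ?_)
  change |√(Real.pi / 2) * rc i0 x * z + √(Real.pi * y) * abs (x i0)| =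
    rc i0 x * |√(Real.pi / 2) * z + √(Real.pi * y) * (abs (x i0) / rc i0 x)|
  have h1 : √(Real.pi / 2) * rc i0 x * z + √(Real.pi * y) * abs (x i0) =
      rc i0 x * (√(Real.pi / 2) * z + √(Real.pi * y) * (abs (x i0) / rc i0 x)) := by
    field_simp
  rw [h1, abs_mul, abs_of_pos hx]

/-- **Rotation invariant zonoids from completely monotone functions.** -/
theorem RI_mem_ZC {n : ℕ} (i0 : Fin n) {η : ℝ} (hη : 0 < η) {f : ℕ → ℝ → ℝ} (hf : CMSeq η f)
    {u u' : ℝ → ℝ} (hu : ∀ t, HasDerivAt u (u' t) t)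
    (hu1 : ∀ t, u t - t * u' t = f 0 (t ^ 2)) (hu0 : u' 0 = 0)
    {L B : ℝ} (hL : ∀ t, 0 ≤ t → |L * t - u t| ≤ B) :
    RI i0 u L ∈ ZC n := by
  refine ZC_closed fun S ε hε => ?_
  have hB : 0 ≤ B := (abs_nonneg _).trans (hL 0 le_rfl)
  have hu00 : 0 ≤ u 0 := by
    have := hu1 0
    simp only [zero_mul, sub_zero] at this
    rw [this]
    exact hf.nonneg 0 _ (by norm_num; exact hη)
  -- bounds on the finite set
  obtain ⟨b1, hb1⟩ := Finset.exists_le (S.image fun x => |x i0|)
  obtain ⟨b2, hb2⟩ := Finset.exists_le (S.image fun x => rc i0 x)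
  obtain ⟨b3, hb3⟩ := Finset.exists_le (S.image fun x => |x i0| / rc i0 x)
  have hb1' : ∀ x ∈ S, |x i0| ≤ b1 := fun x hx => hb1 _ (Finset.mem_image_of_mem _ hx)
  have hb2' : ∀ x ∈ S, rc i0 x ≤ b2 := fun x hx => hb2 _ (Finset.mem_image_of_mem _ hx)
  have hb3' : ∀ x ∈ S, |x i0| / rc i0 x ≤ b3 := fun x hx => hb3 _ (Finset.mem_image_of_mem _ hx)
  set t0 := (|b1| + 1) * (B + 1 + u 0) / (ε / 2) with ht0
  have ht0p : 0 < t0 := by positivity
  set T := max t0 (|b3|) with hT
  have hTp : 0 < T := lt_of_lt_of_le ht0p (le_max_left _ _)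
  set ε' := min 1 (ε / (2 * (|b2| + 1))) with hε'
  have hε'p : 0 < ε' := by positivity
  obtain ⟨c0, m, C, x, hc0, hC, hx, hsum, happ⟩ := kernel_approx hη hf hu hu1 hu0 hTp hε'p
  refine ⟨fun p => c0 * ∫ z, |√(Real.pi / 2) * rc i0 p * z + √(Real.pi * 0) * p i0|
      ∂(gaussianReal 0 1) + ∑ j ∈ Finset.range m, C j *
      ∫ z, |√(Real.pi / 2) * rc i0 p * z + √(Real.pi * x j) * p i0| ∂(gaussianReal 0 1), ?_, ?_⟩
  · refine ZC_add (ZC_smul (gauss_mem_ZC i0 _ _) hc0) ?_
    exact ZC_sum _ _ fun j _ => ZC_smul (gauss_mem_ZC i0 _ _) (hC j)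
  · intro p hp
    by_cases hr : rc i0 p = 0
    · -- on the axis
      simp only [RI, hr, if_true]
      have hax : ∀ y : ℝ, ∫ z, |√(Real.pi / 2) * 0 * z + √(Real.pi * y) * p i0|
          ∂(gaussianReal 0 1) = √(Real.pi * y) * |p i0| := by
        intro y
        simp [abs_mul, abs_of_nonneg (Real.sqrt_nonneg _)]
      simp only [hax]
      have e0 : c0 * (√(Real.pi * 0) * |p i0|) = 0 := by simp
      rw [e0, zero_add]
      set r := |p i0| / t0 with hr'
      have hr0 : 0 ≤ r := by positivity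
      have hrt : |p i0| = r * t0 := by rw [hr']; field_simp
      have hT0 : t0 ≤ T := le_max_left _ _
      have k1 := hL t0 ht0p.le
      have k2 := happ t0 ht0p.le hT0
      have k3 : |(c0 + ∑ j ∈ Finset.range m, C j * kk (x j) t0) -
          ∑ j ∈ Finset.range m, C j * (√(Real.pi * x j) * t0)| ≤ u 0 := by
        have : (c0 + ∑ j ∈ Finset.range m, C j * kk (x j) t0) -
            ∑ j ∈ Finset.range m, C j * (√(Real.pi * x j) * t0) =
            c0 + ∑ j ∈ Finset.range m, C j * (kk (x j) t0 - √(Real.pi * x j) * t0) := by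
          simp only [mul_sub, Finset.sum_sub_distrib]
          ring
        rw [this, ← hsum]
        refine (abs_add_le _ _).trans (add_le_add (abs_of_nonneg hc0).le ?_)
        refine (Finset.abs_sum_le_sum_abs _ _).trans (Finset.sum_le_sum fun j _ => ?_)
        rw [abs_mul, abs_of_nonneg (hC j)]
        have h1 := kk_ge (x j) t0 (hx j) ht0p.le
        rw [abs_sub_comm] at h1
        calc C j * |kk (x j) t0 - √(Real.pi * x j) * t0| ≤ C j * 1 :=
              mul_le_mul_of_nonneg_left h1 (hC j)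
          _ = C j := mul_one _
      have k4 : L * |p i0| - ∑ j ∈ Finset.range m, C j * (√(Real.pi * x j) * |p i0|) =
          r * ((L * t0 - u t0) + (u t0 - (c0 + ∑ j ∈ Finset.range m, C j * kk (x j) t0)) +
          ((c0 + ∑ j ∈ Finset.range m, C j * kk (x j) t0) -
          ∑ j ∈ Finset.range m, C j * (√(Real.pi * x j) * t0))) := by
        have : ∑ j ∈ Finset.range m, C j * (√(Real.pi * x j) * |p i0|) =
            r * ∑ j ∈ Finset.range m, C j * (√(Real.pi * x j) * t0) := by
          rw [Finset.mul_sum]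
          refine Finset.sum_congr rfl fun j _ => ?_
          rw [hrt]; ring
        rw [this, hrt]
        ring
      rw [k4, abs_mul, abs_of_nonneg hr0]
      have k5 : |(L * t0 - u t0) + (u t0 - (c0 + ∑ j ∈ Finset.range m, C j * kk (x j) t0)) +
          ((c0 + ∑ j ∈ Finset.range m, C j * kk (x j) t0) -
          ∑ j ∈ Finset.range m, C j * (√(Real.pi * x j) * t0))| ≤ B + 1 + u 0 := by
        refine (abs_add_three _ _ _).trans ?_
        have : ε' ≤ 1 := min_le_left _ _
        linarith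
      have k6 : r * (B + 1 + u 0) ≤ ε / 2 := by
        have h1 : |p i0| ≤ |b1| + 1 := by
          have := hb1' p hp
          have := le_abs_self b1
          linarith
        calc r * (B + 1 + u 0) = |p i0| * (B + 1 + u 0) / t0 := by rw [hr']; ring
          _ ≤ (|b1| + 1) * (B + 1 + u 0) / t0 := by gcongr
          _ = ε / 2 := by rw [ht0]; field_simp
      calc _ ≤ r * (B + 1 + u 0) := by gcongr
        _ ≤ ε / 2 := k6
        _ < ε := by linarith
    · have hrp : 0 < rc i0 p := lt_of_le_of_ne (rc_nonneg _ _) (Ne.symm hr)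
      simp only [RI, hr, if_false]
      simp only [gauss_eq_kk i0 hrp le_rfl, gauss_eq_kk i0 hrp (hx _)]
      set t := |p i0| / rc i0 p with ht
      have ht0' : 0 ≤ t := by positivity
      have htT : t ≤ T := (hb3' p hp).trans ((le_abs_self _).trans (le_max_right _ _))
      have k0 : kk 0 t = 1 := by simp [kk]
      rw [k0]
      have k1 : rc i0 p * u t - (c0 * (rc i0 p * 1) + ∑ j ∈ Finset.range m,
          C j * (rc i0 p * kk (x j) t)) =
          rc i0 p * (u t - (c0 + ∑ j ∈ Finset.range m, C j * kk (x j) t)) := by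
        have : ∑ j ∈ Finset.range m, C j * (rc i0 p * kk (x j) t) =
            rc i0 p * ∑ j ∈ Finset.range m, C j * kk (x j) t := by
          rw [Finset.mul_sum]
          exact Finset.sum_congr rfl fun j _ => by ring
        rw [this]
        ring
      rw [k1, abs_mul, abs_of_pos hrp]
      have k2 := happ t ht0' htT
      have k3 : rc i0 p ≤ |b2| + 1 := by
        have := hb2' p hp
        have := le_abs_self b2
        linarith
      calc rc i0 p * |u t - (c0 + ∑ j ∈ Finset.range m, C j * kk (x j) t)|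
          ≤ (|b2| + 1) * (ε / (2 * (|b2| + 1))) := by
            have : ε' ≤ ε / (2 * (|b2| + 1)) := min_le_right _ _
            gcongr
            linarith
        _ = ε / 2 := by field_simp
        _ < ε := by linarith

end Pool.Agent.Lib.MP_217de7_gt
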