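import Mathlib
import Pool.Agent.Lib.MP_217de7_gt.CM

/-!
# The dual pair of norms

`N (r, t) = (r²/2 + t²) / √(r² + t²)` and its dual `N* (r, t) = 2 r w^{3/2}` where
`4 w³ - 3 w = 1 + t² / r²`.
-/

open Set Filter Topology MeasureTheory ProbabilityTheory

namespace Pool.Agent.Lib.MP_217de7_gt

/-! ### Complete monotonicity from a closed system of differential equations -/

lemma CM_of_gens {η : ℝ} (G : Set (ℝ → ℝ))
    (hG : ∀ g ∈ G, (∀ σ, -η < σ → 0 ≤ g σ) ∧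
      ∃ h ∈ Subsemiring.closure G, ∀ σ, -η < σ → HasDerivAt g (-(h σ)) σ)
    (f0 : ℝ → ℝ) (hf0 : f0 ∈ Subsemiring.closure G) :
    ∃ f : ℕ → ℝ → ℝ, f 0 = f0 ∧ CMSeq η f := by
  have key : ∀ g ∈ Subsemiring.closure G, (∀ σ, -η < σ → 0 ≤ g σ) ∧
      ∃ h ∈ Subsemiring.closure G, ∀ σ, -η < σ → HasDerivAt g (-(h σ)) σ := by
    intro g hg
    induction hg using Subsemiring.closure_induction with
    | mem x hx => exact hG x hx
    | zero =>
      refine ⟨fun σ _ => le_rfl, 0, Subsemiring.zero_mem _, fun σ _ => ?_⟩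
      exact (hasDerivAt_const σ (0 : ℝ)).congr_deriv (by simp)
    | one =>
      refine ⟨fun σ _ => zero_le_one, 0, Subsemiring.zero_mem _, fun σ _ => ?_⟩
      exact (hasDerivAt_const σ (1 : ℝ)).congr_deriv (by simp)
    | add x y hx hy ihx ihy =>
      obtain ⟨hx1, h, hh, hx2⟩ := ihx
      obtain ⟨hy1, k, hk, hy2⟩ := ihy
      refine ⟨fun σ hσ => add_nonneg (hx1 σ hσ) (hy1 σ hσ), h + k,
        Subsemiring.add_mem _ hh hk, fun σ hσ => ?_⟩
      refine ((hx2 σ hσ).add (hy2 σ hσ)).congr_deriv ?_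
      simp only [Pi.add_apply]
      ring
    | mul x y hx hy ihx ihy =>
      obtain ⟨hx1, h, hh, hx2⟩ := ihx
      obtain ⟨hy1, k, hk, hy2⟩ := ihy
      refine ⟨fun σ hσ => mul_nonneg (hx1 σ hσ) (hy1 σ hσ), h * y + x * k,
        Subsemiring.add_mem _ (Subsemiring.mul_mem _ hh hy) (Subsemiring.mul_mem _ hx hk),
        fun σ hσ => ?_⟩
      refine ((hx2 σ hσ).mul (hy2 σ hσ)).congr_deriv ?_
      simp only [Pi.add_apply, Pi.mul_apply]
      ring
  choose! nx hnx1 hnx2 using fun g hg => (key g hg).2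
  let F : ℕ → ℝ → ℝ := fun k => nx^[k] f0
  have hF : ∀ k, F k ∈ Subsemiring.closure G := by
    intro k
    induction k with
    | zero => exact hf0
    | succ k ih =>
      change nx^[k + 1] f0 ∈ _
      rw [Function.iterate_succ_apply']
      exact hnx1 _ ih
  refine ⟨F, rfl, ⟨fun k σ hσ => (key _ (hF k)).1 σ hσ, fun k σ hσ => ?_⟩⟩
  have h1 : F (k + 1) = nx (F k) := by
    change nx^[k + 1] f0 = nx (nx^[k] f0)
    rw [Function.iterate_succ_apply']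
  rw [h1]
  exact hnx2 _ (hF k) σ hσ

/-! ### First profile -/

/-- Profile of the norm `N`. -/
noncomputable def u1 (t : ℝ) : ℝ := (1 / 2 + t ^ 2) / √(1 + t ^ 2)

/-- Derivative of `u1`. -/
noncomputable def u1' (t : ℝ) : ℝ := t * (3 / 2 + t ^ 2) / √(1 + t ^ 2) ^ 3

lemma u1_hasDerivAt (t : ℝ) : HasDerivAt u1 (u1' t) t := by
  unfold u1 u1'
  have hp : 0 < 1 + t ^ 2 := by positivity
  have hs : 0 < √(1 + t ^ 2) := Real.sqrt_pos.2 hp
  have h1 : HasDerivAt (fun t : ℝ => 1 / 2 + t ^ 2) (2 * t) t := by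
    simpa using (hasDerivAt_pow 2 t).const_add (1 / 2)
  have h2 : HasDerivAt (fun t : ℝ => 1 + t ^ 2) (2 * t) t := by
    simpa using (hasDerivAt_pow 2 t).const_add 1
  have h3 := h2.sqrt hp.ne'
  have h4 := h1.fun_div h3 hs.ne'
  refine h4.congr_deriv ?_
  have hsq : √(1 + t ^ 2) ^ 2 = 1 + t ^ 2 := Real.sq_sqrt hp.le
  field_simp
  rw [hsq]
  ring

/-- `Z1 σ = (1 + σ)^{-1/2}`. -/
noncomputable def Z1 (σ : ℝ) : ℝ := 1 / √(1 + σ)

lemma u1_sub (t : ℝ) : u1 t - t * u1' t = 1 / 2 * (Z1 (t ^ 2)) ^ 3 := by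
  unfold u1 u1' Z1
  have hp : 0 < 1 + t ^ 2 := by positivity
  have hs : 0 < √(1 + t ^ 2) := Real.sqrt_pos.2 hp
  have hsq : √(1 + t ^ 2) ^ 2 = 1 + t ^ 2 := Real.sq_sqrt hp.le
  field_simp
  rw [hsq]
  ring

lemma u1_CM : ∃ f : ℕ → ℝ → ℝ, f 0 = (fun σ => 1 / 2 * (Z1 σ) ^ 3) ∧ CMSeq 1 f := by
  let G : Set (ℝ → ℝ) := {Z1} ∪ {g | ∃ c : ℝ, 0 ≤ c ∧ g = fun _ => c}
  have hZ : Z1 ∈ Subsemiring.closure G := Subsemiring.subset_closure (Or.inl rfl)
  have hc : ∀ c : ℝ, 0 ≤ c → (fun _ : ℝ => c) ∈ Subsemiring.closure G :=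
    fun c hc => Subsemiring.subset_closure (Or.inr ⟨c, hc, rfl⟩)
  refine CM_of_gens G ?_ _ ?_
  · rintro g (hg | ⟨c, hc0, rfl⟩)
    · rw [mem_singleton_iff] at hg
      subst hg
      refine ⟨fun σ _ => by unfold Z1; positivity, (fun _ => (1 / 2 : ℝ)) * (Z1 ^ 3),
        Subsemiring.mul_mem _ (hc _ (by norm_num)) (Subsemiring.pow_mem _ hZ 3), ?_⟩
      intro σ hσ
      have hp : 0 < 1 + σ := by linarith
      have hs : 0 < √(1 + σ) := Real.sqrt_pos.2 hp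
      have h2 : HasDerivAt (fun t : ℝ => 1 + t) 1 σ := by
        simpa using (hasDerivAt_id σ).const_add 1
      have h3 := h2.sqrt hp.ne'
      have h4 := (hasDerivAt_const σ (1 : ℝ)).fun_div h3 hs.ne'
      refine h4.congr_deriv ?_
      simp only [Pi.mul_apply, Pi.pow_apply, Z1]
      field_simp
      ring
    · refine ⟨fun σ _ => hc0, 0, Subsemiring.zero_mem _, fun σ _ => ?_⟩
      simpa using hasDerivAt_const σ c
  · have : (fun σ => 1 / 2 * (Z1 σ) ^ 3) = (fun _ => (1 / 2 : ℝ)) * (Z1 ^ 3) := by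
      funext σ; simp
    rw [this]
    exact Subsemiring.mul_mem _ (hc _ (by norm_num)) (Subsemiring.pow_mem _ hZ 3)

lemma u1_pos (t : ℝ) : 0 < u1 t := by
  unfold u1; positivity

lemma le_u1 {t : ℝ} : t ≤ u1 t := by
  unfold u1
  have hp : 0 < 1 + t ^ 2 := by positivity
  have hs : 0 < √(1 + t ^ 2) := Real.sqrt_pos.2 hp
  have hsq : √(1 + t ^ 2) ^ 2 = 1 + t ^ 2 := Real.sq_sqrt hp.le
  rw [le_div_iff₀ hs]
  refine le_of_sq_le_sq ?_ (by positivity)
  rw [mul_pow, hsq]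
  nlinarith

lemma u1_le {t : ℝ} (ht : 0 ≤ t) : u1 t ≤ t + 1 := by
  unfold u1
  have hp : 0 < 1 + t ^ 2 := by positivity
  have hs : 0 < √(1 + t ^ 2) := Real.sqrt_pos.2 hp
  have hsq : √(1 + t ^ 2) ^ 2 = 1 + t ^ 2 := Real.sq_sqrt hp.le
  rw [div_le_iff₀ hs]
  have h1 : √(1 + t ^ 2) ≤ t + 1 := by
    rw [Real.sqrt_le_left (by positivity)]
    nlinarith
  nlinarith

lemma u1_ge {t : ℝ} : √(1 + t ^ 2) / 2 ≤ u1 t := by
  unfold u1
  have hp : 0 < 1 + t ^ 2 := by positivity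
  have hs : 0 < √(1 + t ^ 2) := Real.sqrt_pos.2 hp
  have hsq : √(1 + t ^ 2) ^ 2 = 1 + t ^ 2 := Real.sq_sqrt hp.le
  rw [le_div_iff₀ hs]
  nlinarith [sq_nonneg t]

/-! ### The function `w` -/

lemma exists_w {σ : ℝ} (hσ : -1 < σ) : ∃ w : ℝ, 4 / 5 ≤ w ∧ 4 * w ^ 3 - 3 * w = 1 + σ := by
  have h1 : (4 / 5 : ℝ) ≤ 1 + |σ| := by have := abs_nonneg σ; linarith
  have hc : ContinuousOn (fun w : ℝ => 4 * w ^ 3 - 3 * w) (Icc (4 / 5) (1 + |σ|)) := by fun_prop
  have h2 : (1 + σ) ∈ Icc (4 * (4 / 5 : ℝ) ^ 3 - 3 * (4 / 5)) (4 * (1 + |σ|) ^ 3 - 3 * (1 + |σ|)) := by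
    constructor
    · norm_num; linarith
    · have h3 : σ ≤ |σ| := le_abs_self σ
      have h4 := abs_nonneg σ
      nlinarith [mul_nonneg h4 h4, mul_nonneg (mul_nonneg h4 h4) h4]
  obtain ⟨w, hw, hw2⟩ := intermediate_value_Icc h1 hc h2
  exact ⟨w, hw.1, hw2⟩

/-- The solution `w ≥ 4/5` of `4 w³ - 3 w = 1 + σ`. -/
noncomputable def wf (σ : ℝ) : ℝ := if h : -1 < σ then Classical.choose (exists_w h) else 1

lemma wf_ge {σ : ℝ} (hσ : -1 < σ) : 4 / 5 ≤ wf σ := by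
  unfold wf; rw [dif_pos hσ]; exact (Classical.choose_spec (exists_w hσ)).1

lemma wf_eq {σ : ℝ} (hσ : -1 < σ) : 4 * wf σ ^ 3 - 3 * wf σ = 1 + σ := by
  unfold wf; rw [dif_pos hσ]; exact (Classical.choose_spec (exists_w hσ)).2

lemma T_sub {a b : ℝ} (ha : 4 / 5 ≤ a) (hb : 4 / 5 ≤ b) :
    |a - b| ≤ |(4 * a ^ 3 - 3 * a) - (4 * b ^ 3 - 3 * b)| := by
  have h1 : (4 * a ^ 3 - 3 * a) - (4 * b ^ 3 - 3 * b) =
      (a - b) * (4 * (a ^ 2 + a * b + b ^ 2) - 3) := by ring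
  have h2 : 1 ≤ 4 * (a ^ 2 + a * b + b ^ 2) - 3 := by nlinarith
  rw [h1, abs_mul]
  have h3 : 1 ≤ |4 * (a ^ 2 + a * b + b ^ 2) - 3| := h2.trans (le_abs_self _)
  nlinarith [abs_nonneg (a - b)]

lemma wf_unique {σ w : ℝ} (hσ : -1 < σ) (hw : 4 / 5 ≤ w) (h : 4 * w ^ 3 - 3 * w = 1 + σ) :
    wf σ = w := by
  have h1 := T_sub (wf_ge hσ) hw
  rw [wf_eq hσ, h, sub_self, abs_zero] at h1
  have := abs_nonpos_iff.1 h1
  linarith

lemma wf_continuousAt {σ : ℝ} (hσ : -1 < σ) : ContinuousAt wf σ := by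
  rw [Metric.continuousAt_iff]
  intro ε hε
  refine ⟨min ε (σ + 1), lt_min hε (by linarith), fun {y} hy => ?_⟩
  rw [Real.dist_eq] at hy ⊢
  have h1 : |y - σ| < ε := hy.trans_le (min_le_left _ _)
  have h2 : |y - σ| < σ + 1 := hy.trans_le (min_le_right _ _)
  have hy1 : -1 < y := by rw [abs_lt] at h2; linarith [h2.1]
  have h3 := T_sub (wf_ge hy1) (wf_ge hσ)
  rw [wf_eq hy1, wf_eq hσ] at h3
  have h4 : (1 + y) - (1 + σ) = y - σ := by ring
  rw [h4] at h3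
  linarith

lemma wf_hasDerivAt {σ : ℝ} (hσ : -1 < σ) :
    HasDerivAt wf (1 / (3 * (2 * wf σ - 1) * (2 * wf σ + 1))) σ := by
  have hw := wf_ge hσ
  have h1 : HasDerivAt (fun w : ℝ => 4 * w ^ 3 - 3 * w - 1)
      (3 * (2 * wf σ - 1) * (2 * wf σ + 1)) (wf σ) := by
    have h2 := (((hasDerivAt_pow 3 (wf σ)).const_mul 4).sub
      ((hasDerivAt_id (wf σ)).const_mul 3)).sub_const 1
    refine h2.congr_deriv ?_
    simp only [Nat.cast_ofNat]
    ring
  have h3 : 3 * (2 * wf σ - 1) * (2 * wf σ + 1) ≠ 0 := by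
    have : 0 < 2 * wf σ - 1 := by linarith
    have : 0 < 2 * wf σ + 1 := by linarith
    positivity
  have h4 : ∀ᶠ y in 𝓝 σ, (fun w : ℝ => 4 * w ^ 3 - 3 * w - 1) (wf y) = y := by
    filter_upwards [Ioi_mem_nhds hσ] with y hy
    have := wf_eq (σ := y) hy
    linarith
  have h5 := HasDerivAt.of_local_left_inverse (wf_continuousAt hσ) h1 h3 h4
  rwa [one_div]

/-! ### Second profile -/

/-- `1 / (2 w + 1)`. -/
noncomputable def Xf (σ : ℝ) : ℝ := 1 / (2 * wf σ + 1)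
/-- `1 / (2 w - 1)`. -/
noncomputable def Yf (σ : ℝ) : ℝ := 1 / (2 * wf σ - 1)
/-- `w^{-1/2}`. -/
noncomputable def Zf (σ : ℝ) : ℝ := 1 / √(wf σ)

lemma u2_CM : ∃ f : ℕ → ℝ → ℝ, f 0 = (fun σ => Zf σ * (1 + Yf σ)) ∧ CMSeq 1 f := by
  let G : Set (ℝ → ℝ) := {Xf, Yf, Zf} ∪ {g | ∃ c : ℝ, 0 ≤ c ∧ g = fun _ => c}
  have hX : Xf ∈ Subsemiring.closure G :=
    Subsemiring.subset_closure (Or.inl (by simp))
  have hY : Yf ∈ Subsemiring.closure G :=
    Subsemiring.subset_closure (Or.inl (by simp))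
  have hZ : Zf ∈ Subsemiring.closure G :=
    Subsemiring.subset_closure (Or.inl (by simp))
  have hc : ∀ c : ℝ, 0 ≤ c → (fun _ : ℝ => c) ∈ Subsemiring.closure G :=
    fun c hc => Subsemiring.subset_closure (Or.inr ⟨c, hc, rfl⟩)
  refine CM_of_gens G ?_ _ ?_
  · rintro g (hg | ⟨c, hc0, rfl⟩)
    · rcases hg with rfl | rfl | rfl
      · refine ⟨fun σ hσ => ?_, (fun _ => (2 / 3 : ℝ)) * (Xf ^ 3 * Yf),
          Subsemiring.mul_mem _ (hc _ (by norm_num))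
            (Subsemiring.mul_mem _ (Subsemiring.pow_mem _ hX 3) hY), ?_⟩
        · have := wf_ge hσ
          unfold Xf
          have : 0 < 2 * wf σ + 1 := by linarith
          positivity
        · intro σ hσ
          have hw := wf_ge hσ
          have p1 : 0 < 2 * wf σ + 1 := by linarith
          have p2 : 0 < 2 * wf σ - 1 := by linarith
          have h2 := ((wf_hasDerivAt hσ).const_mul 2).add_const 1
          have h4 := (hasDerivAt_const σ (1 : ℝ)).fun_div h2 p1.ne'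
          refine h4.congr_deriv ?_
          simp only [Pi.mul_apply, Pi.pow_apply, Xf, Yf]
          field_simp
          ring
      · refine ⟨fun σ hσ => ?_, (fun _ => (2 / 3 : ℝ)) * (Xf * Yf ^ 3),
          Subsemiring.mul_mem _ (hc _ (by norm_num))
            (Subsemiring.mul_mem _ hX (Subsemiring.pow_mem _ hY 3)), ?_⟩
        · have := wf_ge hσ
          unfold Yf
          have : 0 < 2 * wf σ - 1 := by linarith
          positivity
        · intro σ hσ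
          have hw := wf_ge hσ
          have p1 : 0 < 2 * wf σ + 1 := by linarith
          have p2 : 0 < 2 * wf σ - 1 := by linarith
          have h2 := ((wf_hasDerivAt hσ).const_mul 2).sub_const 1
          have h4 := (hasDerivAt_const σ (1 : ℝ)).fun_div h2 p2.ne'
          refine h4.congr_deriv ?_
          simp only [Pi.mul_apply, Pi.pow_apply, Xf, Yf]
          field_simp
          ring
      · refine ⟨fun σ hσ => by unfold Zf; positivity, (fun _ => (1 / 6 : ℝ)) * (Zf ^ 3 * (Xf * Yf)),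
          Subsemiring.mul_mem _ (hc _ (by norm_num))
            (Subsemiring.mul_mem _ (Subsemiring.pow_mem _ hZ 3) (Subsemiring.mul_mem _ hX hY)), ?_⟩
        intro σ hσ
        have hw := wf_ge hσ
        have p1 : 0 < 2 * wf σ + 1 := by linarith
        have p2 : 0 < 2 * wf σ - 1 := by linarith
        have p3 : 0 < wf σ := by linarith
        have p4 : 0 < √(wf σ) := Real.sqrt_pos.2 p3
        have h2 := (wf_hasDerivAt hσ).sqrt p3.ne'
        have h4 := (hasDerivAt_const σ (1 : ℝ)).fun_div h2 p4.ne'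
        refine h4.congr_deriv ?_
        simp only [Pi.mul_apply, Pi.pow_apply, Xf, Yf, Zf]
        field_simp
        ring
    · refine ⟨fun σ _ => hc0, 0, Subsemiring.zero_mem _, fun σ _ => ?_⟩
      simpa using hasDerivAt_const σ c
  · have : (fun σ => Zf σ * (1 + Yf σ)) = Zf * ((fun _ => (1 : ℝ)) + Yf) := by
      funext σ; simp
    rw [this]
    exact Subsemiring.mul_mem _ hZ (Subsemiring.add_mem _ (hc _ (by norm_num)) hY)

/-- Profile of the dual norm. -/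
noncomputable def u2 (t : ℝ) : ℝ := 2 * wf (t ^ 2) * √(wf (t ^ 2))

/-- Derivative of `u2`. -/
noncomputable def u2' (t : ℝ) : ℝ :=
  2 * t * √(wf (t ^ 2)) / ((2 * wf (t ^ 2) - 1) * (2 * wf (t ^ 2) + 1))

lemma sq_gt (t : ℝ) : (-1 : ℝ) < t ^ 2 := by nlinarith [sq_nonneg t]

lemma u2_hasDerivAt (t : ℝ) : HasDerivAt u2 (u2' t) t := by
  unfold u2 u2'
  have hw := wf_ge (sq_gt t)
  have p1 : 0 < 2 * wf (t ^ 2) + 1 := by linarith
  have p2 : 0 < 2 * wf (t ^ 2) - 1 := by linarith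
  have p3 : 0 < wf (t ^ 2) := by linarith
  have p4 : 0 < √(wf (t ^ 2)) := Real.sqrt_pos.2 p3
  have h0 : HasDerivAt (fun t : ℝ => t ^ 2) (2 * t) t := by simpa using hasDerivAt_pow 2 t
  have h1 : HasDerivAt (fun t : ℝ => wf (t ^ 2))
      (1 / (3 * (2 * wf (t ^ 2) - 1) * (2 * wf (t ^ 2) + 1)) * (2 * t)) t :=
    HasDerivAt.comp (h := fun t : ℝ => t ^ 2) t (wf_hasDerivAt (sq_gt t)) h0
  have h2 := h1.sqrt p3.ne'
  have h3 := (h1.const_mul 2).fun_mul h2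
  refine h3.congr_deriv ?_
  have hsq : √(wf (t ^ 2)) ^ 2 = wf (t ^ 2) := Real.sq_sqrt p3.le
  field_simp
  rw [hsq]
  ring

lemma u2_sub (t : ℝ) : u2 t - t * u2' t = Zf (t ^ 2) * (1 + Yf (t ^ 2)) := by
  unfold u2 u2' Zf Yf
  have hw := wf_ge (sq_gt t)
  have he := wf_eq (sq_gt t)
  have p1 : 0 < 2 * wf (t ^ 2) + 1 := by linarith
  have p2 : 0 < 2 * wf (t ^ 2) - 1 := by linarith
  have p3 : 0 < wf (t ^ 2) := by linarith
  have p4 : 0 < √(wf (t ^ 2)) := Real.sqrt_pos.2 p3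
  have hsq : √(wf (t ^ 2)) ^ 2 = wf (t ^ 2) := Real.sq_sqrt p3.le
  generalize hW : wf (t ^ 2) = W at *
  field_simp
  rw [hsq]
  linear_combination (2 * W) * he

end Pool.Agent.Lib.MP_217de7_gt
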