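import Mathlib
import Pool.Agent.Lib.MP_217de7_gt.Dual

/-!
# The example in every dimension
-/

open Set Filter Topology MeasureTheory ProbabilityTheory

namespace Pool.Agent.Lib.MP_217de7_gt

/-! ### The scalar duality relations -/

lemma wf_ge_one {b : ℝ} : 1 ≤ wf (b ^ 2) := by
  have h := wf_eq (sq_gt b)
  have hw := wf_ge (sq_gt b)
  by_contra hlt
  push Not at hlt
  have h2 : 4 * wf (b ^ 2) ^ 3 - 3 * wf (b ^ 2) < 1 := by
    nlinarith [mul_pos (sub_pos.2 hlt) (sub_pos.2 hlt), mul_nonneg (sub_nonneg.2 hlt.le)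
      (sub_nonneg.2 hw)]
  have := sq_nonneg b
  linarith

lemma b_eq {b : ℝ} (hb : 0 ≤ b) : b = √(wf (b ^ 2) - 1) * (2 * wf (b ^ 2) + 1) := by
  have h := wf_eq (sq_gt b)
  have hw := @wf_ge_one b
  have h1 : 0 ≤ √(wf (b ^ 2) - 1) * (2 * wf (b ^ 2) + 1) := by positivity
  refine (sq_eq_sq₀ hb h1).1 ?_
  rw [mul_pow, Real.sq_sqrt (by linarith)]
  linear_combination -h

/-- The Cauchy-Schwarz type inequality for the pair of profiles. -/
lemma core {a b : ℝ} (ha : 0 ≤ a) (hb : 0 ≤ b) : 1 + a * b ≤ u1 a * u2 b := by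
  have hw := @wf_ge_one b
  have hbe := b_eq hb
  have he := wf_eq (sq_gt b)
  unfold u1 u2
  set w := wf (b ^ 2) with hwdef
  set θ := √(w - 1) with hθ
  have hθ0 : 0 ≤ θ := Real.sqrt_nonneg _
  have hθ2 : θ ^ 2 = w - 1 := Real.sq_sqrt (by linarith)
  have hp : 0 < 1 + a ^ 2 := by positivity
  have hs : 0 < √(1 + a ^ 2) := Real.sqrt_pos.2 hp
  have hsq : √(1 + a ^ 2) ^ 2 = 1 + a ^ 2 := Real.sq_sqrt hp.le
  have hwsq : √w ^ 2 = w := Real.sq_sqrt (by linarith)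
  have h1 : (1 / 2 + a ^ 2) / √(1 + a ^ 2) * (2 * w * √w) =
      ((1 + 2 * a ^ 2) * (w * √w)) / √(1 + a ^ 2) := by
    field_simp
  rw [h1, le_div_iff₀ hs]
  refine le_of_sq_le_sq ?_ (by positivity)
  have h2 : ((1 + a * b) * √(1 + a ^ 2)) ^ 2 = (1 + a * b) ^ 2 * (1 + a ^ 2) := by
    rw [mul_pow, hsq]
  have h3 : ((1 + 2 * a ^ 2) * (w * √w)) ^ 2 = (1 + 2 * a ^ 2) ^ 2 * w ^ 3 := by
    rw [mul_pow, mul_pow, hwsq]; ring
  rw [h2, h3]
  have h4 : (1 + 2 * a ^ 2) ^ 2 * w ^ 3 - (1 + a * b) ^ 2 * (1 + a ^ 2) =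
      (a - θ) ^ 2 * ((3 * w + 1) * a ^ 2 + 2 * θ * w * a + (w ^ 2 + w + 1)) := by
    have hwθ : w = 1 + θ ^ 2 := by linarith
    rw [hbe, hwθ]
    ring
  have h5 : 0 ≤ (a - θ) ^ 2 * ((3 * w + 1) * a ^ 2 + 2 * θ * w * a + (w ^ 2 + w + 1)) := by
    have : 0 ≤ w := by linarith
    positivity
  linarith

/-- Equality for the dual slope (from `b` to `a`). -/
lemma dual_a {b : ℝ} (hb : 0 ≤ b) : ∃ a : ℝ, 0 ≤ a ∧ 1 + a * b = u1 a * u2 b := by
  have hw := @wf_ge_one b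
  have hbe := b_eq hb
  refine ⟨√(wf (b ^ 2) - 1), Real.sqrt_nonneg _, ?_⟩
  unfold u1 u2
  set w := wf (b ^ 2) with hwdef
  have hθ2 : √(w - 1) ^ 2 = w - 1 := Real.sq_sqrt (by linarith)
  have h1 : 1 + √(w - 1) ^ 2 = w := by linarith
  rw [h1]
  have hs : 0 < √w := Real.sqrt_pos.2 (by linarith)
  have h2 : √(w - 1) * b = (w - 1) * (2 * w + 1) := by
    conv_lhs => rw [hbe]
    rw [← mul_assoc, ← sq, hθ2]
  rw [h2, hθ2]
  field_simp
  ring

/-- Equality for the dual slope (from `a` to `b`). -/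
lemma dual_b {a : ℝ} (ha : 0 ≤ a) : ∃ b : ℝ, 0 ≤ b ∧ 1 + a * b = u1 a * u2 b := by
  refine ⟨a * (3 + 2 * a ^ 2), by positivity, ?_⟩
  have hw : wf ((a * (3 + 2 * a ^ 2)) ^ 2) = 1 + a ^ 2 := by
    refine wf_unique (sq_gt _) (by nlinarith [sq_nonneg a]) ?_
    ring
  unfold u1 u2
  rw [hw]
  have hs : 0 < √(1 + a ^ 2) := Real.sqrt_pos.2 (by positivity)
  field_simp
  ring

lemma u2_pos (t : ℝ) : 0 < u2 t := by
  have := @wf_ge_one t
  unfold u2
  have : 0 < wf (t ^ 2) := by linarith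
  positivity

lemma u2_sq (t : ℝ) : u2 t ^ 2 = t ^ 2 + 1 + 3 * wf (t ^ 2) := by
  have hw := @wf_ge_one t
  have he := wf_eq (sq_gt t)
  unfold u2
  have hwsq : √(wf (t ^ 2)) ^ 2 = wf (t ^ 2) := Real.sq_sqrt (by linarith)
  rw [mul_pow, hwsq]
  linear_combination he

lemma le_u2 {t : ℝ} : t ≤ u2 t := by
  have hw := @wf_ge_one t
  refine le_of_sq_le_sq ?_ (u2_pos t).le
  rw [u2_sq]
  linarith

lemma sqrt_le_u2 {t : ℝ} : √(1 + t ^ 2) ≤ u2 t := by
  have hw := @wf_ge_one t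
  refine le_of_sq_le_sq ?_ (u2_pos t).le
  rw [u2_sq, Real.sq_sqrt (by positivity)]
  linarith

lemma u2_le {t : ℝ} (ht : 0 ≤ t) : u2 t ≤ t + 2 := by
  have hw := @wf_ge_one t
  have h1 := u2_sq t
  have h2 : √(wf (t ^ 2)) ^ 2 = wf (t ^ 2) := Real.sq_sqrt (by linarith)
  have h3 : 1 ≤ √(wf (t ^ 2)) := by
    rw [Real.one_le_sqrt]; exact hw
  -- (u2 - t) (u2 + t) = 1 + 3 w ≤ 4 w ≤ 2 * (2 w √w) ≤ 2 (u2 + t)
  have h4 : (u2 t - t) * (u2 t + t) = 1 + 3 * wf (t ^ 2) := by linear_combination h1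
  have h5 : 2 * wf (t ^ 2) ≤ u2 t := by
    unfold u2
    nlinarith
  by_contra hlt
  push Not at hlt
  have h6 : 0 < u2 t + t := by have := u2_pos t; linarith
  nlinarith

/-! ### The two norms on `ℝⁿ` -/

variable {n : ℕ}

lemma RI_axis (i0 : Fin n) (u : ℝ → ℝ) {x : EuclideanSpace ℝ (Fin n)} (h : rc i0 x = 0) :
    RI i0 u 1 x = |x i0| := by
  unfold RI; rw [if_pos h, one_mul]

lemma RI_off (i0 : Fin n) (u : ℝ → ℝ) (L : ℝ) {x : EuclideanSpace ℝ (Fin n)} (h : rc i0 x ≠ 0) :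
    RI i0 u L x = rc i0 x * u (|x i0| / rc i0 x) := by
  unfold RI; rw [if_neg h]

lemma RI_nonneg (i0 : Fin n) {u : ℝ → ℝ} (hu : ∀ t, 0 < u t) (x : EuclideanSpace ℝ (Fin n)) :
    0 ≤ RI i0 u 1 x := by
  by_cases h : rc i0 x = 0
  · rw [RI_axis i0 u h]; positivity
  · rw [RI_off i0 u 1 h]
    have := rc_nonneg i0 x
    have := hu (|x i0| / rc i0 x)
    positivity

lemma inner_le_RI (i0 : Fin n) (x y : EuclideanSpace ℝ (Fin n)) :
    inner ℝ x y ≤ RI i0 u1 1 x * RI i0 u2 1 y := by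
  refine (inner_le_rc i0 x y).trans ?_
  have hrx := rc_nonneg i0 x
  have hry := rc_nonneg i0 y
  by_cases hx : rc i0 x = 0 <;> by_cases hy : rc i0 y = 0
  · rw [RI_axis i0 _ hx, RI_axis i0 _ hy, hx]
    simp
  · rw [RI_axis i0 _ hx, RI_off i0 _ _ hy, hx]
    have hy' : 0 < rc i0 y := lt_of_le_of_ne hry (Ne.symm hy)
    have h1 : |y i0| / rc i0 y ≤ u2 (|y i0| / rc i0 y) := le_u2
    rw [div_le_iff₀ hy'] at h1
    have := mul_le_mul_of_nonneg_left h1 (abs_nonneg (x i0))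
    linarith
  · rw [RI_off i0 _ _ hx, RI_axis i0 _ hy, hy]
    have hx' : 0 < rc i0 x := lt_of_le_of_ne hrx (Ne.symm hx)
    have h1 : |x i0| / rc i0 x ≤ u1 (|x i0| / rc i0 x) := le_u1
    rw [div_le_iff₀ hx'] at h1
    have := mul_le_mul_of_nonneg_right h1 (abs_nonneg (y i0))
    linarith
  · rw [RI_off i0 _ _ hx, RI_off i0 _ _ hy]
    have hx' : 0 < rc i0 x := lt_of_le_of_ne hrx (Ne.symm hx)
    have hy' : 0 < rc i0 y := lt_of_le_of_ne hry (Ne.symm hy)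
    have h1 := @core (|x i0| / rc i0 x) (|y i0| / rc i0 y) (by positivity) (by positivity)
    have h2 := mul_le_mul_of_nonneg_left h1 (mul_pos hx' hy').le
    calc rc i0 x * rc i0 y + |x i0| * |y i0| =
        rc i0 x * rc i0 y * (1 + |x i0| / rc i0 x * (|y i0| / rc i0 y)) := by field_simp
      _ ≤ rc i0 x * rc i0 y * (u1 (|x i0| / rc i0 x) * u2 (|y i0| / rc i0 y)) := h2
      _ = _ := by ring

/-- Existence of norming vectors. -/
lemma exists_norming (i0 : Fin n) {u v : ℝ → ℝ} (hu : ∀ t, 0 < u t)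
    (huv : ∀ b, 0 ≤ b → ∃ a : ℝ, 0 ≤ a ∧ 1 + a * b = u a * v b)
    (y : EuclideanSpace ℝ (Fin n)) :
    ∃ x : EuclideanSpace ℝ (Fin n), RI i0 u 1 x ≤ 1 ∧ inner ℝ y x = RI i0 v 1 y := by
  set s : ℝ := if 0 ≤ y i0 then 1 else -1 with hs
  have hs1 : |s| = 1 := by rw [hs]; split_ifs <;> simp
  have hsy : s * y i0 = |y i0| := by
    rw [hs]; split_ifs with h
    · rw [abs_of_nonneg h, one_mul]
    · rw [abs_of_neg (not_le.1 h)]; ring
  have hpr : ∀ (c : ℝ), pr i0 (c • EuclideanSpace.single i0 (1 : ℝ)) = 0 := by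
    intro c
    unfold pr
    simp
  by_cases hy : rc i0 y = 0
  · refine ⟨s • EuclideanSpace.single i0 (1 : ℝ), ?_, ?_⟩
    · have h1 : rc i0 (s • EuclideanSpace.single i0 (1 : ℝ)) = 0 := by
        unfold rc; rw [hpr]; simp
      rw [RI_axis i0 _ h1]
      simp [hs1]
    · rw [RI_axis i0 _ hy, inner_smul_right, inner_single_right', hsy]
  · have hy' : 0 < rc i0 y := lt_of_le_of_ne (rc_nonneg _ _) (Ne.symm hy)
    obtain ⟨a, ha, hab⟩ := huv (|y i0| / rc i0 y) (by positivity)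
    have hua := hu a
    set x : EuclideanSpace ℝ (Fin n) := (u a)⁻¹ • ((rc i0 y)⁻¹ • pr i0 y +
      (a * s) • EuclideanSpace.single i0 (1 : ℝ)) with hx
    have hx0 : x i0 = (u a)⁻¹ * (a * s) := by
      rw [hx]
      simp [pr_apply_self]
    have hprx : pr i0 x = ((u a)⁻¹ * (rc i0 y)⁻¹) • pr i0 y := by
      unfold pr at hx ⊢
      rw [hx0, hx]
      module
    have hrx : rc i0 x = (u a)⁻¹ := by
      unfold rc
      rw [hprx, norm_smul, norm_mul, norm_inv, norm_inv, Real.norm_of_nonneg hua.le]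
      change (u a)⁻¹ * ‖rc i0 y‖⁻¹ * rc i0 y = (u a)⁻¹
      rw [Real.norm_of_nonneg hy'.le, mul_assoc, inv_mul_cancel₀ hy, mul_one]
    refine ⟨x, ?_, ?_⟩
    · have hne : rc i0 x ≠ 0 := by rw [hrx]; positivity
      rw [RI_off i0 _ _ hne, hrx, hx0]
      have h1 : |(u a)⁻¹ * (a * s)| / (u a)⁻¹ = a := by
        rw [abs_mul, abs_mul, hs1, abs_of_nonneg ha, abs_of_pos (by positivity)]
        field_simp
      rw [h1]
      field_simp
      exact le_rfl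
    · rw [RI_off i0 _ _ hy, hx, inner_smul_right, inner_add_right, inner_smul_right,
        inner_smul_right, inner_single_right']
      have h2 : inner ℝ y (pr i0 y) = rc i0 y ^ 2 := by
        rw [inner_eq i0, pr_apply_self, mul_zero, add_zero]
        have : pr i0 (pr i0 y) = pr i0 y := by
          have h3 := pr_apply_self i0 y
          conv_lhs => unfold pr
          unfold pr at h3 ⊢
          rw [h3, zero_smul, sub_zero]
        rw [this, real_inner_self_eq_norm_sq, rc]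
      rw [h2]
      have h3 : (u a)⁻¹ * ((rc i0 y)⁻¹ * rc i0 y ^ 2 + a * s * y i0) =
          rc i0 y * ((1 + a * (|y i0| / rc i0 y)) / u a) := by
        rw [mul_assoc a s, hsy]
        field_simp
      rw [h3, hab]
      field_simp

lemma RI_smul (i0 : Fin n) (u : ℝ → ℝ) {c : ℝ} (hc : 0 < c) (x : EuclideanSpace ℝ (Fin n)) :
    RI i0 u 1 (c • x) = c * RI i0 u 1 x := by
  have h1 : pr i0 (c • x) = c • pr i0 x := by
    unfold pr
    simp only [PiLp.smul_apply, smul_eq_mul]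
    module
  have h2 : rc i0 (c • x) = c * rc i0 x := by
    unfold rc; rw [h1, norm_smul, Real.norm_of_nonneg hc.le]
  have h3 : |(c • x) i0| = c * |x i0| := by
    simp only [PiLp.smul_apply, smul_eq_mul, abs_mul, abs_of_pos hc]
  by_cases h : rc i0 x = 0
  · rw [RI_axis i0 _ h, RI_axis i0 _ (by rw [h2, h, mul_zero]), h3]
  · rw [RI_off i0 _ _ h, RI_off i0 _ _ (by rw [h2]; positivity), h2, h3,
      mul_div_mul_left _ _ hc.ne', mul_assoc]

/-- The centred unit ball of the first norm. -/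
def KK (i0 : Fin n) : Set (EuclideanSpace ℝ (Fin n)) := {x | RI i0 u1 1 x ≤ 1}

/-- The centred unit ball of the dual norm. -/
def DD (i0 : Fin n) : Set (EuclideanSpace ℝ (Fin n)) := {x | RI i0 u2 1 x ≤ 1}

lemma polar_KK (i0 : Fin n) :
    {y : EuclideanSpace ℝ (Fin n) | ∀ x ∈ KK i0, inner ℝ x y ≤ (1 : ℝ)} = DD i0 := by
  ext y
  constructor
  · intro hy
    obtain ⟨x, hx, hxy⟩ := exists_norming i0 u1_pos (fun b hb => dual_a hb) y
    have := hy x hx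
    rw [real_inner_comm, hxy] at this
    exact this
  · intro hy x hx
    have h1 : RI i0 u1 1 x ≤ 1 := hx
    have h2 : RI i0 u2 1 y ≤ 1 := hy
    have h3 := RI_nonneg i0 u1_pos x
    have h4 := RI_nonneg i0 u2_pos y
    calc inner ℝ x y ≤ RI i0 u1 1 x * RI i0 u2 1 y := inner_le_RI i0 x y
      _ ≤ 1 * 1 := by gcongr
      _ = 1 := one_mul 1

lemma dual_b' (b : ℝ) (hb : 0 ≤ b) : ∃ a : ℝ, 0 ≤ a ∧ 1 + a * b = u2 a * u1 b := by
  obtain ⟨a, ha, h⟩ := dual_b hb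
  exact ⟨a, ha, by rw [mul_comm a b, h, mul_comm]⟩

lemma polar_DD (i0 : Fin n) :
    {y : EuclideanSpace ℝ (Fin n) | ∀ x ∈ DD i0, inner ℝ x y ≤ (1 : ℝ)} = KK i0 := by
  ext y
  constructor
  · intro hy
    obtain ⟨x, hx, hxy⟩ := exists_norming i0 u2_pos dual_b' y
    have := hy x hx
    rw [real_inner_comm, hxy] at this
    exact this
  · intro hy x hx
    have h1 : RI i0 u2 1 x ≤ 1 := hx
    have h2 : RI i0 u1 1 y ≤ 1 := hy
    have h3 := RI_nonneg i0 u2_pos x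
    have h4 := RI_nonneg i0 u1_pos y
    calc inner ℝ x y = inner ℝ y x := real_inner_comm _ _
      _ ≤ RI i0 u1 1 y * RI i0 u2 1 x := inner_le_RI i0 y x
      _ ≤ 1 * 1 := by gcongr
      _ = 1 := one_mul 1

lemma polar_convex (A : Set (EuclideanSpace ℝ (Fin n))) :
    Convex ℝ {y : EuclideanSpace ℝ (Fin n) | ∀ x ∈ A, inner ℝ x y ≤ (1 : ℝ)} := by
  intro y hy z hz a b ha hb hab x hx
  rw [inner_add_right, inner_smul_right, inner_smul_right]
  have h1 := hy x hx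
  have h2 := hz x hx
  calc a * inner ℝ x y + b * inner ℝ x z ≤ a * 1 + b * 1 := by gcongr
    _ = 1 := by rw [mul_one, mul_one, hab]

lemma polar_closed (A : Set (EuclideanSpace ℝ (Fin n))) :
    IsClosed {y : EuclideanSpace ℝ (Fin n) | ∀ x ∈ A, inner ℝ x y ≤ (1 : ℝ)} := by
  have : {y : EuclideanSpace ℝ (Fin n) | ∀ x ∈ A, inner ℝ x y ≤ (1 : ℝ)} =
      ⋂ x ∈ A, {y | inner ℝ x y ≤ (1 : ℝ)} := by
    ext y; simp
  rw [this]
  exact isClosed_biInter fun x _ => isClosed_le (by fun_prop) continuous_const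

lemma norm_eq_off (i0 : Fin n) {x : EuclideanSpace ℝ (Fin n)} (h : rc i0 x ≠ 0) :
    ‖x‖ = rc i0 x * √(1 + (|x i0| / rc i0 x) ^ 2) := by
  have hp : 0 < rc i0 x := lt_of_le_of_ne (rc_nonneg _ _) (Ne.symm h)
  have h1 := norm_sq_eq i0 x
  have h2 : ‖x‖ ^ 2 = (rc i0 x * √(1 + (|x i0| / rc i0 x) ^ 2)) ^ 2 := by
    rw [mul_pow, Real.sq_sqrt (by positivity), h1, div_pow, sq_abs]
    field_simp
  exact (sq_eq_sq₀ (norm_nonneg _) (by positivity)).1 h2

lemma norm_eq_axis (i0 : Fin n) {x : EuclideanSpace ℝ (Fin n)} (h : rc i0 x = 0) :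
    ‖x‖ = |x i0| := by
  have h1 := norm_sq_eq i0 x
  rw [h] at h1
  have h2 : ‖x‖ ^ 2 = |x i0| ^ 2 := by rw [sq_abs, h1]; ring
  exact (sq_eq_sq₀ (norm_nonneg _) (abs_nonneg _)).1 h2

lemma norm_le_RI1 (i0 : Fin n) (x : EuclideanSpace ℝ (Fin n)) : ‖x‖ ≤ 2 * RI i0 u1 1 x := by
  by_cases h : rc i0 x = 0
  · rw [RI_axis i0 _ h, norm_eq_axis i0 h]
    have := abs_nonneg (x i0)
    linarith
  · rw [RI_off i0 _ _ h, norm_eq_off i0 h]
    have h1 := @u1_ge (|x i0| / rc i0 x)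
    have h2 := mul_le_mul_of_nonneg_left h1 (rc_nonneg i0 x)
    linarith

lemma norm_le_RI2 (i0 : Fin n) (x : EuclideanSpace ℝ (Fin n)) : ‖x‖ ≤ RI i0 u2 1 x := by
  by_cases h : rc i0 x = 0
  · rw [RI_axis i0 _ h, norm_eq_axis i0 h]
  · rw [RI_off i0 _ _ h, norm_eq_off i0 h]
    have h1 := @sqrt_le_u2 (|x i0| / rc i0 x)
    exact mul_le_mul_of_nonneg_left h1 (rc_nonneg i0 x)

lemma KK_compact (i0 : Fin n) : IsCompact (KK i0) := by
  refine Metric.isCompact_of_isClosed_isBounded ?_ ?_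
  · rw [← polar_DD]; exact polar_closed _
  · refine (Metric.isBounded_closedBall (x := (0 : EuclideanSpace ℝ (Fin n))) (r := 2)).subset ?_
    intro x hx
    rw [mem_closedBall_zero_iff]
    have h1 : RI i0 u1 1 x ≤ 1 := hx
    have := norm_le_RI1 i0 x
    linarith

lemma DD_compact (i0 : Fin n) : IsCompact (DD i0) := by
  refine Metric.isCompact_of_isClosed_isBounded ?_ ?_
  · rw [← polar_KK]; exact polar_closed _
  · refine (Metric.isBounded_closedBall (x := (0 : EuclideanSpace ℝ (Fin n))) (r := 1)).subset ?_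
    intro x hx
    rw [mem_closedBall_zero_iff]
    have h1 : RI i0 u2 1 x ≤ 1 := hx
    have := norm_le_RI2 i0 x
    linarith

lemma RI_zero (i0 : Fin n) (u : ℝ → ℝ) : RI i0 u 1 0 = 0 := by
  have h : rc i0 (0 : EuclideanSpace ℝ (Fin n)) = 0 := by
    unfold rc pr; simp
  rw [RI_axis i0 _ h]; simp

lemma RI1_mem (i0 : Fin n) : RI i0 u1 1 ∈ ZC n := by
  obtain ⟨f, hf0, hf⟩ := u1_CM
  refine RI_mem_ZC i0 one_pos hf u1_hasDerivAt (fun t => ?_) (by simp [u1']) (B := 1) ?_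
  · rw [hf0]; exact u1_sub t
  · intro t ht
    rw [abs_le]
    have h1 := @le_u1 t
    have h2 := u1_le ht
    constructor <;> linarith

lemma RI2_mem (i0 : Fin n) : RI i0 u2 1 ∈ ZC n := by
  obtain ⟨f, hf0, hf⟩ := u2_CM
  refine RI_mem_ZC i0 one_pos hf u2_hasDerivAt (fun t => ?_) (by simp [u2']) (B := 2) ?_
  · rw [hf0]; exact u2_sub t
  · intro t ht
    rw [abs_le]
    have h1 := @le_u2 t
    have h2 := u2_le ht
    constructor <;> linarith

/-- `KK` is a zonoid. -/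
theorem KK_zonoid (i0 : Fin n) (δ : ℝ) (hδ : 0 < δ) :
    ∃ (m : ℕ) (v : Fin m → EuclideanSpace ℝ (Fin n)),
      Metric.hausdorffDist (KK i0)
        {x | ∃ t : Fin m → ℝ, (∀ i, |t i| ≤ 1) ∧ x = ∑ i, t i • v i} < δ := by
  refine hausdorff_approx (h := RI i0 u2 1) (KK_compact i0) ⟨0, ?_⟩ ?_ ?_ ?_ (RI2_mem i0) δ hδ
  · change RI i0 u1 1 0 ≤ 1
    rw [RI_zero]; norm_num
  · rw [← polar_DD]; exact polar_convex _
  · intro x y hy
    have h1 : RI i0 u1 1 y ≤ 1 := hy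
    have h4 := RI_nonneg i0 u2_pos x
    calc inner ℝ x y = inner ℝ y x := real_inner_comm _ _
      _ ≤ RI i0 u1 1 y * RI i0 u2 1 x := inner_le_RI i0 y x
      _ ≤ 1 * RI i0 u2 1 x := by gcongr
      _ = _ := one_mul _
  · intro x
    obtain ⟨y, hy, hxy⟩ := exists_norming i0 u1_pos (fun b hb => dual_a hb) x
    exact ⟨y, hy, hxy⟩

/-- `DD` is a zonoid. -/
theorem DD_zonoid (i0 : Fin n) (δ : ℝ) (hδ : 0 < δ) :
    ∃ (m : ℕ) (v : Fin m → EuclideanSpace ℝ (Fin n)),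
      Metric.hausdorffDist (DD i0)
        {x | ∃ t : Fin m → ℝ, (∀ i, |t i| ≤ 1) ∧ x = ∑ i, t i • v i} < δ := by
  refine hausdorff_approx (h := RI i0 u1 1) (DD_compact i0) ⟨0, ?_⟩ ?_ ?_ ?_ (RI1_mem i0) δ hδ
  · change RI i0 u2 1 0 ≤ 1
    rw [RI_zero]; norm_num
  · rw [← polar_KK]; exact polar_convex _
  · intro x y hy
    have h1 : RI i0 u2 1 y ≤ 1 := hy
    have h4 := RI_nonneg i0 u1_pos x
    calc inner ℝ x y ≤ RI i0 u1 1 x * RI i0 u2 1 y := inner_le_RI i0 x y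
      _ ≤ RI i0 u1 1 x * 1 := by gcongr
      _ = _ := mul_one _
  · intro x
    obtain ⟨y, hy, hxy⟩ := exists_norming i0 u2_pos dual_b' x
    exact ⟨y, hy, hxy⟩

/-- `KK` is far from the Euclidean ball: the parallelogram law fails by a definite amount. -/
theorem KK_far {i0 i1 : Fin n} (h01 : i1 ≠ i0)
    (T : EuclideanSpace ℝ (Fin n) ≃ₗ[ℝ] EuclideanSpace ℝ (Fin n))
    (hT1 : Metric.closedBall (0 : EuclideanSpace ℝ (Fin n)) 1 ⊆ T '' (KK i0))
    (hT2 : T '' (KK i0) ⊆ Metric.closedBall (0 : EuclideanSpace ℝ (Fin n)) (1 + 1 / 20)) :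
    False := by
  -- lower bound
  have hlow : ∀ x : EuclideanSpace ℝ (Fin n), RI i0 u1 1 x = 1 → 1 ≤ ‖T x‖ := by
    intro x hx
    by_contra hlt
    push Not at hlt
    set c : ℝ := 2 / (1 + ‖T x‖) with hc
    have hpos : 0 < 1 + ‖T x‖ := by positivity
    have hc1 : 1 < c := by rw [hc, lt_div_iff₀ hpos]; linarith
    have hc2 : c * ‖T x‖ ≤ 1 := by
      rw [hc, div_mul_eq_mul_div, div_le_one hpos]; linarith
    have h1 : T (c • x) ∈ Metric.closedBall (0 : EuclideanSpace ℝ (Fin n)) 1 := by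
      rw [mem_closedBall_zero_iff, map_smul, norm_smul, Real.norm_of_nonneg (by linarith)]
      exact hc2
    obtain ⟨y, hy, hxy⟩ := hT1 h1
    have h2 : y = c • x := T.injective hxy
    rw [h2] at hy
    have h3 : RI i0 u1 1 (c • x) ≤ 1 := hy
    rw [RI_smul i0 _ (by linarith), hx] at h3
    linarith
  have hup : ∀ (x : EuclideanSpace ℝ (Fin n)) (c : ℝ), 0 < c → RI i0 u1 1 x = c →
      ‖T x‖ ≤ (1 + 1 / 20) * c := by
    intro x c hc hx
    have h1 : (c⁻¹ • x) ∈ KK i0 := by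
      change RI i0 u1 1 (c⁻¹ • x) ≤ 1
      rw [RI_smul i0 _ (by positivity), hx, inv_mul_cancel₀ hc.ne']
    have h2 := hT2 (mem_image_of_mem T h1)
    rw [mem_closedBall_zero_iff, map_smul, norm_smul, norm_inv, Real.norm_of_nonneg hc.le,
      inv_mul_le_iff₀ hc] at h2
    linarith
  set e0 : EuclideanSpace ℝ (Fin n) := EuclideanSpace.single i0 (1 : ℝ) with he0
  set e1 : EuclideanSpace ℝ (Fin n) := (2 : ℝ) • EuclideanSpace.single i1 (1 : ℝ) with he1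
  have a0 : e0 i0 = 1 := by rw [he0]; simp
  have a1 : e1 i0 = 0 := by rw [he1]; simp [h01.symm]
  have p0 : pr i0 e0 = 0 := by unfold pr; rw [a0, one_smul, he0, sub_self]
  have p1 : pr i0 e1 = e1 := by unfold pr; rw [a1, zero_smul, sub_zero]
  have n1 : ‖e1‖ = 2 := by rw [he1, norm_smul]; simp
  have prs : ∀ s : ℝ, pr i0 (e1 + s • e0) = e1 := by
    intro s
    have : pr i0 (e1 + s • e0) = pr i0 e1 + s • pr i0 e0 := by
      unfold pr
      simp only [PiLp.add_apply, PiLp.smul_apply, smul_eq_mul]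
      module
    rw [this, p0, p1, smul_zero, add_zero]
  have r0 : RI i0 u1 1 e0 = 1 := by
    rw [RI_axis i0 _ (by unfold rc; rw [p0, norm_zero]), a0, abs_one]
  have r1 : RI i0 u1 1 e1 = 1 := by
    have h : rc i0 e1 = 2 := by unfold rc; rw [p1, n1]
    rw [RI_off i0 _ _ (by rw [h]; norm_num), h, a1]
    simp [u1]
  have rs : ∀ s : ℝ, |s| = 1 → RI i0 u1 1 (e1 + s • e0) = 3 / √5 := by
    intro s hs
    have h : rc i0 (e1 + s • e0) = 2 := by unfold rc; rw [prs, n1]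
    have h2 : (e1 + s • e0) i0 = s := by
      simp only [PiLp.add_apply, PiLp.smul_apply, smul_eq_mul, a0, a1]; ring
    rw [RI_off i0 _ _ (by rw [h]; norm_num), h, h2, hs]
    unfold u1
    have h3 : √(1 + (1 / 2 : ℝ) ^ 2) = √5 / 2 := by
      rw [show (1 + (1 / 2 : ℝ) ^ 2) = 5 / 2 ^ 2 by norm_num, Real.sqrt_div (by norm_num),
        Real.sqrt_sq (by norm_num)]
    rw [h3]
    have h5 : (0 : ℝ) < √5 := Real.sqrt_pos.2 (by norm_num)
    field_simp
    norm_num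
  have l0 := hlow e0 r0
  have l1 := hlow e1 r1
  have h5 : (0 : ℝ) < √5 := Real.sqrt_pos.2 (by norm_num)
  have h5' : √5 ^ 2 = (5 : ℝ) := Real.sq_sqrt (by norm_num)
  have up1 := hup (e1 + (1 : ℝ) • e0) (3 / √5) (by positivity) (rs 1 (by simp))
  have up2 := hup (e1 + (-1 : ℝ) • e0) (3 / √5) (by positivity) (rs (-1) (by simp))
  have m1 : T (e1 + (1 : ℝ) • e0) = T e1 + T e0 := by simp
  have m2 : T (e1 + (-1 : ℝ) • e0) = T e1 - T e0 := by
    rw [neg_one_smul, ← sub_eq_add_neg, map_sub]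
  rw [m1] at up1
  rw [m2] at up2
  have par := parallelogram_law_with_norm ℝ (T e1) (T e0)
  have q : ((1 + 1 / 20) * (3 / √5)) ^ 2 = (11025 / 10000 : ℝ) * (9 / 5) := by
    rw [mul_pow, div_pow, h5']; norm_num
  have s1 : ‖T e1 + T e0‖ ^ 2 ≤ (11025 / 10000 : ℝ) * (9 / 5) := by
    rw [← q]; exact pow_le_pow_left₀ (norm_nonneg _) up1 2
  have s2 : ‖T e1 - T e0‖ ^ 2 ≤ (11025 / 10000 : ℝ) * (9 / 5) := by
    rw [← q]; exact pow_le_pow_left₀ (norm_nonneg _) up2 2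
  nlinarith

end Pool.Agent.Lib.MP_217de7_gt
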